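import Pool.Agent.Lib.BHR_h63.Hyp

set_option autoImplicit false

/-!
Robust uniqueness of the multiplication table among difference matrices over a prime field.
-/

namespace Pool.Agent.Lib.BHR_h63

open Finset

variable {p : ℕ} [Fact p.Prime] {M : ZMod p → ZMod p → ZMod p} {R C : Finset (ZMod p)}

/-- heavy rows -/
def HRow (M : ZMod p → ZMod p → ZMod p) (R C : Finset (ZMod p)) : Finset (ZMod p) :=
  R.filter fun i => 3 * p ≤ 32 * (Er M R C i).card

/-- heavy columns -/
def HCol (M : ZMod p → ZMod p → ZMod p) (R C : Finset (ZMod p)) : Finset (ZMod p) :=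
  C.filter fun x => 3 * p ≤ 32 * (Ec M R C x).card

theorem card_HRow {w : ℕ} (hw : 32 * (Err M R C).card ≤ w * p) :
    3 * (HRow M R C).card ≤ w := by
  classical
  have hp : 0 < p := (Fact.out : p.Prime).pos
  have h1 : (HRow M R C).card * (3 * p) ≤ 32 * (Err M R C).card := by
    have h2 : ∑ i ∈ HRow M R C, 3 * p ≤ ∑ i ∈ HRow M R C, 32 * (Er M R C i).card :=
      sum_le_sum fun i hi => (mem_filter.1 hi).2
    rw [sum_const, smul_eq_mul, ← mul_sum] at h2
    refine h2.trans (Nat.mul_le_mul_left 32 ?_)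
    rw [card_eq_sum_card_fiberwise (f := fun z : ZMod p × ZMod p => z.1) (t := univ)
      (fun _ _ => mem_coe.2 (mem_univ _))]
    exact sum_le_sum_of_subset (subset_univ _)
  have h3 : (3 * (HRow M R C).card) * p ≤ w * p := by nlinarith
  exact Nat.le_of_mul_le_mul_right h3 hp

theorem card_HCol {w : ℕ} (hw : 32 * (Err M R C).card ≤ w * p) :
    3 * (HCol M R C).card ≤ w := by
  classical
  have hp : 0 < p := (Fact.out : p.Prime).pos
  have h1 : (HCol M R C).card * (3 * p) ≤ 32 * (Err M R C).card := by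
    have h2 : ∑ i ∈ HCol M R C, 3 * p ≤ ∑ i ∈ HCol M R C, 32 * (Ec M R C i).card :=
      sum_le_sum fun i hi => (mem_filter.1 hi).2
    rw [sum_const, smul_eq_mul, ← mul_sum] at h2
    refine h2.trans (Nat.mul_le_mul_left 32 ?_)
    rw [card_eq_sum_card_fiberwise (f := fun z : ZMod p × ZMod p => z.2) (t := univ)
      (fun _ _ => mem_coe.2 (mem_univ _))]
    exact sum_le_sum_of_subset (subset_univ _)
  have h3 : (3 * (HCol M R C).card) * p ≤ w * p := by nlinarith
  exact Nat.le_of_mul_le_mul_right h3 hp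

/-- all errors lie in heavy rows or heavy columns -/
theorem heavy (hM : IsDM M) {w : ℕ} (hw : 32 * (Err M R C).card ≤ w * p)
    (hw1 : w + 2 * p ≤ R.card + 2 * C.card + 2) (hw2 : w + p ≤ 2 * R.card + 2)
    {z : ZMod p × ZMod p} (hz : z ∈ Err M R C) : z.1 ∈ HRow M R C ∨ z.2 ∈ HCol M R C := by
  classical
  by_contra hlight
  rw [not_or] at hlight
  have hzR := (mem_Err.1 hz).1.1
  have hzC := (mem_Err.1 hz).1.2
  have light : ∀ v ∈ Err M R C, v.1 ∉ HRow M R C → v.2 ∉ HCol M R C →
      24 * w + 2 * p ≤ 32 * (Hy M R C v).card + 14 := by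
    intro v hv h1 h2
    have h3 : 32 * (Er M R C v.1).card < 3 * p := by
      by_contra h
      exact h1 (mem_filter.2 ⟨(mem_Err.1 hv).1.1, not_lt.1 h⟩)
    have h4 : 32 * (Ec M R C v.2).card < 3 * p := by
      by_contra h
      exact h2 (mem_filter.2 ⟨(mem_Err.1 hv).1.2, not_lt.1 h⟩)
    have h5 := card_Hy hM hv
    omega
  have hp11 : 11 ≤ p := by
    have h1 : 0 < (Er M R C z.1).card := card_pos.2 ⟨z, mem_filter.2 ⟨hz, rfl⟩⟩
    have h3 : 32 * (Er M R C z.1).card < 3 * p := by
      by_contra h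
      exact hlight.1 (mem_filter.2 ⟨hzR, not_lt.1 h⟩)
    omega
  have hw0 : 1 ≤ w := by
    by_contra h
    have h0 : w = 0 := by omega
    have h1 : 0 < (Err M R C).card := card_pos.2 ⟨z, hz⟩
    rw [h0, zero_mul] at hw
    omega
  have hzl := light z hz hlight.1 hlight.2
  have hHR := card_HRow hw
  have hHC := card_HCol hw
  rcases Nat.lt_or_ge p 24 with hp24 | hp24
  · have h1 : (Hy M R C z).card ≤ (Err M R C).card := card_le_card (filter_subset _ _)
    have h2 : w * p ≤ w * 23 := Nat.mul_le_mul_left w (by omega)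
    omega
  -- light points of the hyperbola
  set G' := (Hy M R C z).filter fun v => ¬ (v.1 ∈ HRow M R C ∨ v.2 ∈ HCol M R C) with hG'
  have hG1 : (Hy M R C z).card ≤ G'.card + (HRow M R C).card + (HCol M R C).card := by
    have h1 := card_filter_add_card_filter_not (s := Hy M R C z)
      (fun v => v.1 ∈ HRow M R C ∨ v.2 ∈ HCol M R C)
    have h2 : ((Hy M R C z).filter fun v => v.1 ∈ HRow M R C ∨ v.2 ∈ HCol M R C).card ≤
        (HRow M R C).card + (HCol M R C).card := by
      rw [filter_or]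
      refine (card_union_le _ _).trans (Nat.add_le_add ?_ ?_)
      · apply card_le_card_of_injOn (fun v => v.1)
        · intro v hv; exact (mem_filter.1 hv).2
        · intro v hv v' hv' h
          exact Hy_inj_fst hz (mem_filter.1 hv).1 (mem_filter.1 hv').1 h
      · apply card_le_card_of_injOn (fun v => v.2)
        · intro v hv; exact (mem_filter.1 hv).2
        · intro v hv v' hv' h
          exact Hy_inj_snd hz (mem_filter.1 hv).1 (mem_filter.1 hv').1 h
    have h3 : G'.card = ((Hy M R C z).filter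
      fun v => ¬ (v.1 ∈ HRow M R C ∨ v.2 ∈ HCol M R C)).card := rfl
    omega
  set L : ℕ := (p + 23) / 24 with hL
  have hL1 : L ≤ G'.card := by omega
  obtain ⟨Z, hZ, hZc⟩ := exists_subset_card_eq hL1
  have hZE : ∀ v ∈ Z, v ∈ Err M R C := fun v hv =>
    (mem_Hy.1 (mem_filter.1 (hZ hv)).1).1
  have hZrich : ∀ v ∈ Z, 24 * w + 2 * p ≤ 32 * (Hy M R C v).card + 14 := by
    intro v hv
    have h2 := (mem_filter.1 (hZ hv)).2
    rw [not_or] at h2
    exact light v (hZE v hv) h2.1 h2.2
  have hsum := sum_card_le (Hy M R C) Z fun v hv v' hv' hne =>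
    card_inter_Hy (hZE v hv) hne
  have hbi : (Z.biUnion (Hy M R C)).card ≤ (Err M R C).card := by
    apply card_le_card
    intro v hv
    obtain ⟨u, _, hu⟩ := mem_biUnion.1 hv
    exact (mem_Hy.1 hu).1
  have hlow : L * (24 * w + 2 * p) ≤ 32 * ∑ v ∈ Z, (Hy M R C v).card + L * 14 := by
    have h1 : ∑ v ∈ Z, (24 * w + 2 * p) ≤ ∑ v ∈ Z, (32 * (Hy M R C v).card + 14) :=
      sum_le_sum hZrich
    rw [sum_const, smul_eq_mul, sum_add_distrib, sum_const, smul_eq_mul, ← mul_sum, hZc] at h1
    exact h1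
  rw [hZc] at hsum
  have hL2 : 24 * (L - 1) + 1 ≤ p := by omega
  have hL3 : p ≤ 24 * L := by omega
  have h6 : L * (24 * (L - 1) + 1) ≤ L * p := Nat.mul_le_mul_left L hL2
  -- L (576 w + 16 p) ≤ 768 |E| + 304 L
  have h7 : L * (576 * w + 16 * p) ≤ 768 * (Err M R C).card + L * 304 := by nlinarith
  obtain ⟨k, hk⟩ := Nat.exists_eq_add_of_le (by omega : 19 ≤ p)
  have h8 : L * (576 * w + 16 * k) ≤ 768 * (Err M R C).card := by
    have : L * (576 * w + 16 * p) = L * (576 * w + 16 * k) + L * 304 := by rw [hk]; ring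
    omega
  have h9 : p * (576 * w + 16 * k) ≤ 24 * L * (576 * w + 16 * k) := Nat.mul_le_mul_right _ hL3
  have hk0 : 1 ≤ k := by omega
  have h10 : p * (576 * w + 16 * k) ≤ 576 * (w * p) := by nlinarith
  have h11 : p * 16 ≤ p * (16 * k) := Nat.mul_le_mul_left p (by omega)
  nlinarith

/-- **Robust uniqueness**, difference matrix form. -/
theorem robust (hM : IsDM M)
    (h1 : 32 * (Err M R C).card + 2 * p * p ≤ (R.card + 2 * C.card + 2) * p)
    (h2 : 32 * (Err M R C).card + p * p ≤ (2 * R.card + 2) * p) :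
    ∃ α β s t : ZMod p → ZMod p, Function.Bijective s ∧ Function.Bijective t ∧
      ∀ i x, M i x = α i + β x + s i * t x := by
  classical
  have hp : 0 < p := (Fact.out : p.Prime).pos
  rcases Nat.lt_or_ge 6 p with hp6 | hp6
  swap
  · exact small hM hp6
  have h3 : 2 * p ≤ R.card + 2 * C.card + 2 :=
    Nat.le_of_mul_le_mul_right (le_trans (Nat.le_add_left _ _) h1) hp
  have h4 : p ≤ 2 * R.card + 2 :=
    Nat.le_of_mul_le_mul_right (le_trans (Nat.le_add_left _ _) h2) hp
  obtain ⟨a, ha⟩ := Nat.exists_eq_add_of_le h3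
  obtain ⟨b, hb⟩ := Nat.exists_eq_add_of_le h4
  set w : ℕ := min a b with hw
  have hwa : w ≤ a := min_le_left _ _
  have hwb : w ≤ b := min_le_right _ _
  have hE : 32 * (Err M R C).card ≤ w * p := by
    rw [ha] at h1
    rw [hb] at h2
    have h5 : 32 * (Err M R C).card ≤ a * p := by nlinarith
    have h6 : 32 * (Err M R C).card ≤ b * p := by nlinarith
    rcases min_choice a b with h | h
    · rw [hw, h]; exact h5
    · rw [hw, h]; exact h6
  have hHR := card_HRow hE
  have hHC := card_HCol hE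
  have hRd : (R \ HRow M R C).card + (HRow M R C).card = R.card :=
    card_sdiff_add_card_eq_card (filter_subset _ _)
  have hCd : (C \ HCol M R C).card + (HCol M R C).card = C.card :=
    card_sdiff_add_card_eq_card (filter_subset _ _)
  apply grid hM (R \ HRow M R C) (C \ HCol M R C)
  · intro i hi x hx
    by_contra hne
    rw [mem_sdiff] at hi hx
    have hz : ((i, x) : ZMod p × ZMod p) ∈ Err M R C := mem_Err.2 ⟨⟨hi.1, hx.1⟩, hne⟩
    rcases heavy hM hE (by omega) (by omega) hz with h | h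
    · exact hi.2 h
    · exact hx.2 h
  · omega
  · omega
  · omega

end Pool.Agent.Lib.BHR_h63
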