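import Pool.Agent.Lib.BHR_h63.Rigid

set_option autoImplicit false

/-!
Difference matrices whose rows are cubic polynomials.
-/

namespace Pool.Agent.Lib.BHR_h63

open Polynomial Finset

/-- degree filtrations -/
structure Filt (A : Type*) [CommRing A] where
  D : ℕ → A → Prop
  zero : ∀ d, D d 0
  one : ∀ d, D d 1
  sub : ∀ {d a b}, D d a → D d b → D d (a - b)
  mul : ∀ {d e a b}, D d a → D e b → D (d + e) (a * b)
  mono : ∀ {d e a}, d ≤ e → D d a → D e a

namespace Filt

variable {A : Type*} [CommRing A] (F : Filt A)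

theorem neg {d : ℕ} {a : A} (h : F.D d a) : F.D d (-a) := by
  have := F.sub (F.zero d) h
  rwa [zero_sub] at this

theorem add {d : ℕ} {a b : A} (h : F.D d a) (h' : F.D d b) : F.D d (a + b) := by
  have := F.sub h (F.neg h')
  rwa [sub_neg_eq_add] at this

theorem sum {ι : Type*} {d : ℕ} (s : Finset ι) (f : ι → A) (h : ∀ i ∈ s, F.D d (f i)) :
    F.D d (∑ i ∈ s, f i) := by
  classical
  induction s using Finset.induction_on with
  | empty => rw [sum_empty]; exact F.zero d
  | insert a s ha ih =>
    rw [sum_insert ha]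
    exact F.add (h a (mem_insert_self _ _)) (ih fun i hi => h i (mem_insert_of_mem hi))

/-- the filtration of the polynomial ring by total degree -/
def poly : Filt A[X] where
  D d P := ∀ m, P.coeff m = 0 ∨ (m ≤ d ∧ F.D (d - m) (P.coeff m))
  zero d m := Or.inl (by simp)
  one d m := by
    rw [coeff_one]
    split_ifs with h
    · right
      subst h
      exact ⟨Nat.zero_le _, F.one _⟩
    · exact Or.inl rfl
  sub := by
    intro d P Q hP hQ m
    rw [coeff_sub]
    rcases hP m with h1 | h1 <;> rcases hQ m with h2 | h2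
    · exact Or.inl (by rw [h1, h2, sub_zero])
    · right; rw [h1, zero_sub]; exact ⟨h2.1, F.neg h2.2⟩
    · right; rw [h2, sub_zero]; exact h1
    · exact Or.inr ⟨h1.1, F.sub h1.2 h2.2⟩
  mul := by
    intro d e P Q hP hQ m
    rw [coeff_mul]
    by_cases hm : m ≤ d + e
    · right
      refine ⟨hm, F.sum _ _ ?_⟩
      rintro ⟨i, j⟩ hij
      rw [HasAntidiagonal.mem_antidiagonal] at hij
      simp only at hij ⊢
      rcases hP i with h1 | h1
      · rw [h1, zero_mul]; exact F.zero _
      rcases hQ j with h2 | h2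
      · rw [h2, mul_zero]; exact F.zero _
      exact F.mono (by omega) (F.mul h1.2 h2.2)
    · left
      apply sum_eq_zero
      rintro ⟨i, j⟩ hij
      rw [HasAntidiagonal.mem_antidiagonal] at hij
      simp only at hij ⊢
      rcases hP i with h1 | h1
      · rw [h1, zero_mul]
      rcases hQ j with h2 | h2
      · rw [h2, mul_zero]
      omega
  mono := by
    intro d e P hde hP m
    rcases hP m with h | h
    · exact Or.inl h
    · exact Or.inr ⟨h.1.trans hde, F.mono (by omega) h.2⟩

theorem poly_C_mul_X_pow {d m : ℕ} {c : A} (hm : m ≤ d) (hc : F.D (d - m) c) :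
    F.poly.D d (C c * X ^ m) := by
  intro k
  rw [coeff_C_mul_X_pow]
  split_ifs with hk
  · right; subst hk; exact ⟨hm, hc⟩
  · left; rfl

theorem poly_X_pow (m : ℕ) : F.poly.D m (X ^ m) := by
  have := F.poly_C_mul_X_pow (le_refl m) (F.one (m - m))
  rwa [C_1, one_mul] at this

theorem poly_C {d : ℕ} {c : A} (hc : F.D d c) : F.poly.D d (C c) := by
  have := F.poly_C_mul_X_pow (Nat.zero_le d) (by rwa [Nat.sub_zero])
  rwa [pow_zero, mul_one] at this

theorem poly_prod {ι : Type*} (U : Finset ι) (a : ι → A) (ha : ∀ u ∈ U, F.D 1 (a u)) :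
    F.poly.D U.card (∏ u ∈ U, (X - C (a u))) := by
  classical
  induction U using Finset.induction_on with
  | empty =>
    rw [prod_empty, card_empty]
    exact F.poly.one 0
  | insert u U hu ih =>
    rw [prod_insert hu, card_insert_of_notMem hu, add_comm U.card 1]
    refine F.poly.mul ?_ (ih fun v hv => ha v (mem_insert_of_mem hv))
    have h1 := F.poly_X_pow 1
    rw [pow_one] at h1
    exact F.poly.sub h1 (F.poly_C (ha u (mem_insert_self _ _)))

theorem poly_mod [Nontrivial A] {d r : ℕ} {R : A[X]} (hR : F.poly.D r R) (hm : R.Monic)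
    (hr : R.natDegree = r) :
    ∀ (n : ℕ) (P : A[X]), P.natDegree ≤ n → F.poly.D d P → F.poly.D d (P %ₘ R) := by
  intro n
  induction n with
  | zero =>
    intro P hP hW
    by_cases hd : P.degree < R.degree
    · rwa [(modByMonic_eq_self_iff hm).2 hd]
    · have hR0 : R.natDegree = 0 := by
        by_contra h
        apply hd
        refine lt_of_le_of_lt degree_le_natDegree ?_
        rw [degree_eq_natDegree hm.ne_zero]
        exact_mod_cast (by omega : P.natDegree < R.natDegree)
      have hR1 : R = 1 := hm.natDegree_eq_zero.1 hR0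
      rw [hR1, modByMonic_one]
      exact F.poly.zero d
  | succ n ih =>
    intro P hP hW
    by_cases hd : P.degree < R.degree
    · rwa [(modByMonic_eq_self_iff hm).2 hd]
    rw [not_lt] at hd
    by_cases hP0 : P = 0
    · rw [hP0, zero_modByMonic]; exact F.poly.zero d
    set Q : A[X] := C P.leadingCoeff * X ^ (P.natDegree - R.natDegree) with hQ
    have hlt := div_wf_lemma ⟨hd, hP0⟩ hm
    have hle : R.natDegree ≤ P.natDegree := natDegree_le_natDegree hd
    have hlead : P.natDegree ≤ d ∧ F.D (d - P.natDegree) P.leadingCoeff := by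
      rcases hW P.natDegree with h | h
      · exact absurd h (by simpa using hP0)
      · exact h
    have hWQ : F.poly.D (d - r) Q := by
      apply F.poly_C_mul_X_pow
      · omega
      · exact F.mono (by omega) hlead.2
    have hWRQ : F.poly.D d (R * Q) := by
      have := F.poly.mul hR hWQ
      rwa [Nat.add_sub_cancel' (by omega)] at this
    have hW' : F.poly.D d (P - R * Q) := F.poly.sub hW hWRQ
    have hmod : (P - R * Q) %ₘ R = P %ₘ R := by
      rw [sub_modByMonic, mul_comm R Q, (modByMonic_eq_zero_iff_dvd hm).2 (dvd_mul_left R Q),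
        sub_zero]
    rw [← hmod]
    apply ih _ _ hW'
    by_cases h0 : P - R * Q = 0
    · rw [h0]; simp
    · have := natDegree_lt_natDegree h0 hlt
      omega

/-- the trivial filtration -/
def triv (A : Type*) [CommRing A] : Filt A where
  D _ _ := True
  zero _ := trivial
  one _ := trivial
  sub _ _ := trivial
  mul _ _ := trivial
  mono _ _ := trivial

end Filt

section Fibre

variable {p : ℕ} [Fact p.Prime]

/-- one fibre of the lacunary polynomial argument -/
theorem fibre {ι : Type*} (U : Finset ι) (c : ι → ZMod p) (rz : (ZMod p)[X]) (D : ℕ)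
    (hD : 1 ≤ D) (hDp : D < p) (hrzd : rz.natDegree ≤ D) (hU : 2 * D ≤ U.card)
    (hdvd : (∏ u ∈ U, (X - C (c u))) ∣ (X ^ p - rz)) :
    Set.InjOn c U ∨ ∃ κ, ∀ u ∈ U, c u = κ := by
  classical
  have hp : p.Prime := Fact.out
  have hXp0 : (X ^ p - X : (ZMod p)[X]) ≠ 0 := FiniteField.X_pow_card_sub_X_ne_zero _ hp.one_lt
  have hrootsXp : (X ^ p - X : (ZMod p)[X]).roots = Finset.univ.val := by
    have := FiniteField.roots_X_pow_card_sub_X (ZMod p)
    rwa [ZMod.card] at this
  set s : Multiset (ZMod p) := U.val.map c with hs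
  have hRzs : (∏ u ∈ U, (X - C (c u))) = (s.map (fun c => X - C c)).prod := by
    rw [hs, Multiset.map_map]
    rfl
  set G : (ZMod p)[X] := X ^ p - rz with hG
  have hG0 : G ≠ 0 := by
    intro h0
    have h1 : (X ^ p : (ZMod p)[X]) = rz := sub_eq_zero.1 h0
    have h3 := natDegree_X_pow (R := ZMod p) p
    rw [h1] at h3
    omega
  have hsG : s ≤ G.roots := by
    rw [← Multiset.prod_X_sub_C_dvd_iff_le_roots hG0, ← hRzs]
    exact hdvd
  have hGder : derivative G = - derivative rz := by
    rw [hG, derivative_sub, derivative_X_pow]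
    simp
  have hcard : Multiset.card s = U.card := by rw [hs, Multiset.card_map]; rfl
  by_cases hprod : (X - rz) * derivative rz = 0
  · rcases mul_eq_zero.1 hprod with h0 | h0
    · left
      have hrX : rz = X := (sub_eq_zero.1 h0).symm
      have hle : s ≤ (Finset.univ : Finset (ZMod p)).val := by
        rw [← hrootsXp]
        rw [hG, hrX] at hsG
        exact hsG
      have hnd : s.Nodup := Multiset.nodup_of_le hle Finset.univ.nodup
      have := (Multiset.nodup_map_iff_inj_on U.nodup).1 hnd
      intro x hx y hy hxy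
      exact this x hx y hy hxy
    · right
      have hconst : rz = C (rz.coeff 0) := by
        ext m
        rcases m with _ | m
        · simp
        · rw [coeff_C_succ]
          by_cases hm : m + 1 < p
          · have h1 := congrArg (fun P => Polynomial.coeff P m) h0
            simp only [coeff_derivative, coeff_zero] at h1
            rcases mul_eq_zero.1 h1 with h3 | h3
            · exact h3
            · exfalso
              have h4 : ((m + 1 : ℕ) : ZMod p) = 0 := by exact_mod_cast h3
              rw [ZMod.natCast_eq_zero_iff] at h4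
              exact absurd (Nat.le_of_dvd (Nat.succ_pos m) h4) (by omega)
          · exact coeff_eq_zero_of_natDegree_lt (by omega)
      refine ⟨rz.coeff 0, fun u hu => ?_⟩
      have hmem : c u ∈ G.roots := Multiset.mem_of_le hsG (Multiset.mem_map_of_mem _ hu)
      have hroot := (mem_roots hG0).1 hmem
      rw [IsRoot.def, hG, eval_sub, eval_pow, eval_X, ZMod.pow_card, hconst, eval_C,
        sub_eq_zero] at hroot
      simpa using hroot
  · exfalso
    have hsr : s ≤ ((X - rz) * derivative rz).roots := by
      rw [Multiset.le_iff_count]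
      intro c
      rcases Nat.eq_zero_or_pos (Multiset.count c s) with h0 | h0
      · rw [h0]; exact Nat.zero_le _
      have hcG : Multiset.count c s ≤ rootMultiplicity c G := by
        rw [← count_roots]
        exact Multiset.le_iff_count.1 hsG c
      have hpow : (X - C c) ^ (Multiset.count c s) ∣ G := (le_rootMultiplicity_iff hG0).1 hcG
      have hder : (X - C c) ^ (Multiset.count c s - 1) ∣ derivative rz := by
        have h1 := pow_sub_one_dvd_derivative_of_pow_dvd hpow
        rw [hGder] at h1
        exact (dvd_neg).1 h1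
      have hlin : (X - C c) ∣ (X - rz) := by
        have hroot : IsRoot G c := dvd_iff_isRoot.1 (dvd_trans (dvd_pow_self _ (by omega)) hpow)
        rw [dvd_iff_isRoot, IsRoot.def]
        rw [IsRoot.def, hG, eval_sub, eval_pow, eval_X, ZMod.pow_card] at hroot
        rw [eval_sub, eval_X]
        exact hroot
      rw [count_roots, le_rootMultiplicity_iff hprod]
      have h1 : (X - C c) ^ (Multiset.count c s)
          = (X - C c) * (X - C c) ^ (Multiset.count c s - 1) := by
        rw [← pow_succ']
        congr 1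
        omega
      rw [h1]
      exact mul_dvd_mul hlin hder
    have h1 : Multiset.card s ≤ ((X - rz) * derivative rz).natDegree :=
      (Multiset.card_le_card hsr).trans (card_roots' _)
    have h3 : (X - rz).natDegree ≤ D := by
      refine (natDegree_sub_le _ _).trans ?_
      rw [natDegree_X]
      exact max_le (by omega) hrzd
    have h4 : (derivative rz).natDegree ≤ D - 1 :=
      (natDegree_derivative_le rz).trans (by omega)
    have h5 := natDegree_mul_le (p := X - rz) (q := derivative rz)
    omega

end Fibre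

section Bi

variable {p : ℕ} [Fact p.Prime]

/-- total degree on `K[S][Q]` -/
noncomputable def F2 (p : ℕ) [Fact p.Prime] : Filt (ZMod p)[X][X] := (Filt.triv (ZMod p)).poly.poly

theorem F2_coeff {n : ℕ} {f : (ZMod p)[X][X]} (hf : (F2 p).D n f) (k : ℕ) :
    f.coeff k = 0 ∨ (k ≤ n ∧ (f.coeff k).natDegree + k ≤ n) := by
  rcases hf k with h | h
  · exact Or.inl h
  · right
    refine ⟨h.1, ?_⟩
    have h1 : (f.coeff k).natDegree ≤ n - k := by
      rw [natDegree_le_iff_coeff_eq_zero]
      intro m hm
      rcases h.2 m with h2 | h2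
      · exact h2
      · exact absurd h2.1 (not_le.2 hm)
    omega

/-- evaluation of `K[S][Q]` at `(s, q)` -/
noncomputable def ev (s q : ZMod p) : (ZMod p)[X][X] →+* ZMod p :=
  (evalRingHom q).comp (mapRingHom (evalRingHom s))

theorem ev_apply (s q : ZMod p) (f : (ZMod p)[X][X]) :
    ev s q f = (f.map (evalRingHom s)).eval q := by
  simp [ev]

/-- `N` is not contained in a curve of degree `n` -/
def Generic (n : ℕ) (N : Set (ZMod p × ZMod p)) : Prop :=
  ∀ f : (ZMod p)[X][X], (F2 p).D n f → (∀ z ∈ N, ev z.1 z.2 f = 0) → f = 0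

/-- two parameters: if the functionals `c1 + s c2 + q c3` are injective on `U` for a set of
`(s, q)` which is not contained in a curve of degree `n`, with `2 (p - n - 1) ≤ |U|`, then every
functional is injective or constant -/
theorem inj_or_const_two {ι : Type*} (U : Finset ι) (c1 c2 c3 : ι → ZMod p)
    (N : Set (ZMod p × ZMod p)) (n : ℕ) (hn : n + 1 < p) (hgen : Generic n N)
    (hN : ∀ z ∈ N, Set.InjOn (fun u => c1 u + z.1 * c2 u + z.2 * c3 u) U)
    (hU : 2 * (p - n - 1) ≤ U.card) (s q : ZMod p) :
    Set.InjOn (fun u => c1 u + s * c2 u + q * c3 u) U ∨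
      ∃ κ, ∀ u ∈ U, c1 u + s * c2 u + q * c3 u = κ := by
  classical
  have hp : p.Prime := Fact.out
  have h2 : 2 ≤ U.card := by omega
  set a : ι → (ZMod p)[X][X] := fun u => C (C (c1 u)) + C X * C (C (c2 u)) + X * C (C (c3 u))
    with ha
  have haD : ∀ u ∈ U, (F2 p).D 1 (a u) := by
    intro u _
    have hC : ∀ x : ZMod p, (F2 p).D 0 (C (C x)) := fun x =>
      (Filt.triv (ZMod p)).poly.poly_C ((Filt.triv (ZMod p)).poly_C trivial)
    have hS : (F2 p).D 1 (C X) := by
      apply (Filt.triv (ZMod p)).poly.poly_C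
      have := (Filt.triv (ZMod p)).poly_X_pow 1
      rwa [pow_one] at this
    have hQ : (F2 p).D 1 X := by
      have := (Filt.triv (ZMod p)).poly.poly_X_pow 1
      rwa [pow_one] at this
    exact (F2 p).add ((F2 p).add ((F2 p).mono (by omega) (hC _)) ((F2 p).mul hS (hC _)))
      ((F2 p).mul hQ (hC _))
  have hev : ∀ s q u, ev s q (a u) = c1 u + s * c2 u + q * c3 u := by
    intro s q u
    rw [ev_apply, ha]
    simp
    ring
  set R : (ZMod p)[X][X][X] := ∏ u ∈ U, (X - C (a u)) with hRdef
  have hRm : R.Monic := monic_prod_of_monic _ _ fun _ _ => monic_X_sub_C _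
  have hRd : R.natDegree = U.card := by
    rw [hRdef, natDegree_prod_of_monic _ _ fun _ _ => monic_X_sub_C _,
      Finset.sum_congr rfl fun u _ => natDegree_X_sub_C (a u), Finset.sum_const,
      smul_eq_mul, mul_one]
  set S : (ZMod p)[X][X][X] := X ^ p %ₘ R with hS
  have hWS : (F2 p).poly.D p S :=
    (F2 p).poly_mod ((F2 p).poly_prod U a haD) hRm hRd p _ (natDegree_X_pow_le p)
      ((F2 p).poly_X_pow p)
  have hRw : ∀ s q : ZMod p, R.map (ev s q) = ∏ u ∈ U, (X - C (c1 u + s * c2 u + q * c3 u)) := by
    intro s q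
    rw [hRdef, Polynomial.map_prod]
    refine Finset.prod_congr rfl fun u _ => ?_
    rw [Polynomial.map_sub, map_X, map_C, hev]
  have hRwm : ∀ s q : ZMod p, (R.map (ev s q)).Monic := fun s q => hRm.map _
  have hSw : ∀ s q : ZMod p, S.map (ev s q) = X ^ p %ₘ (R.map (ev s q)) := by
    intro s q
    rw [hS, map_modByMonic _ hRm]
    simp
  have hXp0 : (X ^ p - X : (ZMod p)[X]) ≠ 0 := FiniteField.X_pow_card_sub_X_ne_zero _ hp.one_lt
  have hrootsXp : (X ^ p - X : (ZMod p)[X]).roots = Finset.univ.val := by
    have := FiniteField.roots_X_pow_card_sub_X (ZMod p)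
    rwa [ZMod.card] at this
  have hgood : ∀ z ∈ N, S.map (ev z.1 z.2) = X := by
    intro z hz
    have hnd : (U.val.map (fun u => c1 u + z.1 * c2 u + z.2 * c3 u)).Nodup :=
      Multiset.Nodup.map_on (fun x hx y hy hxy => hN z hz hx hy hxy) U.nodup
    have hmul : R.map (ev z.1 z.2) = ((U.val.map (fun u => c1 u + z.1 * c2 u + z.2 * c3 u)).map
        (fun c => X - C c)).prod := by
      rw [hRw, Multiset.map_map]
      rfl
    have hdvd : R.map (ev z.1 z.2) ∣ (X ^ p - X : (ZMod p)[X]) := by
      rw [hmul, Multiset.prod_X_sub_C_dvd_iff_le_roots hXp0, hrootsXp]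
      exact (Multiset.le_iff_subset hnd).2 fun c _ => Finset.mem_univ c
    have h0 := (modByMonic_eq_zero_iff_dvd (hRwm z.1 z.2)).2 hdvd
    rw [sub_modByMonic, sub_eq_zero] at h0
    have hdeg : (R.map (ev z.1 z.2)).degree = ((U.card : ℕ) : WithBot ℕ) := by
      rw [hRm.degree_map, degree_eq_natDegree hRm.ne_zero, hRd]
    rw [hSw, h0, modByMonic_eq_self_iff (hRwm z.1 z.2), degree_X, hdeg]
    exact_mod_cast h2
  have hcoeff : ∀ m, m ≠ 1 → p ≤ m + n → S.coeff m = 0 := by
    intro m hm1 hm
    rcases hWS m with h0 | h0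
    · exact h0
    · apply hgen
      · exact (F2 p).mono (by omega) h0.2
      · intro z hz
        have h1 := congrArg (fun P => Polynomial.coeff P m) (hgood z hz)
        simp only [coeff_map, coeff_X] at h1
        rwa [if_neg (fun h => hm1 h.symm)] at h1
  apply fibre U _ (S.map (ev s q)) (p - n - 1) (by omega) (by omega) ?_ hU ?_
  · rw [natDegree_le_iff_coeff_eq_zero]
    intro m hm
    rw [coeff_map, hcoeff m (by omega) (by omega), map_zero]
  · rw [← hRw, hSw, modByMonic_eq_sub_mul_div]
    refine ⟨X ^ p /ₘ R.map (ev s q), ?_⟩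
    ring

/-- the set of the pairs `(x + y, x ^ 2 + x y + y ^ 2)`, `x ≠ y`, in the form in which it is used:
`4 q - 3 s ^ 2` is a non-zero square -/
def NC (p : ℕ) [Fact p.Prime] : Set (ZMod p × ZMod p) :=
  {z | (4 * z.2 - 3 * z.1 ^ 2) ^ ((p - 1) / 2) = 1}

theorem card_pow_eq_one (hp2 : p ≠ 2) :
    (univ.filter fun z : ZMod p => z ^ ((p - 1) / 2) = 1).card = (p - 1) / 2 := by
  classical
  have hp : p.Prime := Fact.out
  have hodd : 2 * ((p - 1) / 2) = p - 1 := by
    rcases hp.eq_two_or_odd with h | h
    · exact absurd h hp2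
    · omega
  set n := (p - 1) / 2 with hn
  have hn0 : 0 < n := by have := hp.two_le; omega
  have hroots : ∀ a : ZMod p, (univ.filter fun z : ZMod p => z ^ n = a).card ≤ n := by
    intro a
    have hne : (X ^ n - C a : (ZMod p)[X]) ≠ 0 := X_pow_sub_C_ne_zero hn0 a
    have h1 : (univ.filter fun z : ZMod p => z ^ n = a) ⊆ (X ^ n - C a : (ZMod p)[X]).roots.toFinset := by
      intro z hz
      rw [Multiset.mem_toFinset, mem_roots hne, IsRoot.def, eval_sub, eval_pow, eval_X, eval_C,
        (mem_filter.1 hz).2, sub_self]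
    refine (card_le_card h1).trans ((Multiset.toFinset_card_le _).trans ?_)
    refine (card_roots' _).trans ?_
    rw [natDegree_X_pow_sub_C]
  have hcover : (univ.erase (0 : ZMod p)) ⊆
      (univ.filter fun z : ZMod p => z ^ n = 1) ∪ (univ.filter fun z : ZMod p => z ^ n = -1) := by
    intro z hz
    have hz0 : z ≠ 0 := (mem_erase.1 hz).1
    have h1 : z ^ (p - 1) = 1 := ZMod.pow_card_sub_one_eq_one hz0
    have h2 : (z ^ n - 1) * (z ^ n + 1) = 0 := by
      have : z ^ n * z ^ n = 1 := by rw [← pow_add, ← two_mul, hodd, h1]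
      linear_combination this
    rcases mul_eq_zero.1 h2 with h3 | h3
    · exact mem_union_left _ (mem_filter.2 ⟨mem_univ _, sub_eq_zero.1 h3⟩)
    · exact mem_union_right _ (mem_filter.2 ⟨mem_univ _, eq_neg_of_add_eq_zero_left h3⟩)
  have h1 := card_le_card hcover
  have h2 := card_union_le (univ.filter fun z : ZMod p => z ^ n = 1)
    (univ.filter fun z : ZMod p => z ^ n = -1)
  have h3 := hroots (-1)
  have h4 := hroots 1
  rw [card_erase_of_mem (mem_univ _), card_univ, ZMod.card] at h1
  omega

/-- the set of the cubic case is not contained in a curve of degree `(p - 1) / 2` -/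
theorem generic_NC (hp5 : 5 ≤ p) : Generic ((p - 1) / 2) (NC p) := by
  classical
  have hp : p.Prime := Fact.out
  intro f hf hvan
  set n := (p - 1) / 2 with hn
  have hodd : 2 * n = p - 1 := by
    rcases hp.eq_two_or_odd with h | h
    · omega
    · omega
  have hn0 : 0 < n := by omega
  have h2 : (2 : ZMod p) ≠ 0 := by
    intro h
    have h1 : ((2 : ℕ) : ZMod p) = 0 := by exact_mod_cast h
    rw [ZMod.natCast_eq_zero_iff] at h1
    exact absurd (Nat.le_of_dvd (by norm_num) h1) (by omega)
  have h3 : (3 : ZMod p) ≠ 0 := by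
    intro h
    have h1 : ((3 : ℕ) : ZMod p) = 0 := by exact_mod_cast h
    rw [ZMod.natCast_eq_zero_iff] at h1
    exact absurd (Nat.le_of_dvd (by norm_num) h1) (by omega)
  have h4 : (4 : ZMod p) ≠ 0 := by
    have : (4 : ZMod p) = 2 * 2 := by norm_num
    rw [this]; exact mul_ne_zero h2 h2
  set A : ZMod p := (f.coeff n).coeff 0 with hA
  set B : ZMod p := A * (4 ^ n)⁻¹ with hB
  have hB4 : B * 4 ^ n = A := by rw [hB]; field_simp
  have hfn : ∀ s, (f.coeff n).eval s = A := by
    intro s
    have h5 : (f.coeff n).natDegree = 0 := by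
      rcases F2_coeff hf n with h | h
      · rw [h, natDegree_zero]
      · omega
    rw [eq_C_of_natDegree_eq_zero h5, eval_C]
  have hfk : ∀ k, n < k → f.coeff k = 0 := by
    intro k hk
    rcases F2_coeff hf k with h | h
    · exact h
    · omega
  -- the value of f
  have hval : ∀ s q, ev s q f = B * ((4 * q - 3 * s ^ 2) ^ n - 1) := by
    intro s
    set h : (ZMod p)[X] := C B * ((C 4 * X - C (3 * s ^ 2)) ^ n - 1) with hh
    have hlin : (C 4 * X - C (3 * s ^ 2) : (ZMod p)[X]).natDegree ≤ 1 := by compute_degree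
    have hpow : ((C 4 * X - C (3 * s ^ 2)) ^ n : (ZMod p)[X]).natDegree ≤ n := by
      refine natDegree_pow_le.trans ?_
      calc n * _ ≤ n * 1 := Nat.mul_le_mul_left n hlin
        _ = n := mul_one n
    have hhn : h.natDegree ≤ n := by
      refine natDegree_mul_le.trans ?_
      rw [natDegree_C, zero_add]
      refine (natDegree_sub_le _ _).trans (max_le hpow ?_)
      rw [natDegree_one]; exact Nat.zero_le _
    have hhc : h.coeff n = A := by
      rw [hh, coeff_C_mul, coeff_sub]
      have h5 : ((C 4 * X - C (3 * s ^ 2)) ^ n : (ZMod p)[X]).coeff n = 4 ^ n := by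
        have h6 := coeff_pow_of_natDegree_le hlin (m := n)
        rw [mul_one] at h6
        rw [h6]
        rw [coeff_sub, coeff_C_mul, coeff_X_one, mul_one, coeff_C, if_neg one_ne_zero, sub_zero]
      rw [h5, coeff_one, if_neg (by omega), sub_zero, hB4]
    have hgn : (f.map (evalRingHom s)).natDegree ≤ n := by
      rw [natDegree_le_iff_coeff_eq_zero]
      intro k hk
      rw [coeff_map, hfk k hk, map_zero]
    have hgc : (f.map (evalRingHom s)).coeff n = A := by
      rw [coeff_map, coe_evalRingHom, hfn]
    have hdiff : f.map (evalRingHom s) - h = 0 := by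
      apply eq_zero_of_natDegree_lt_card_of_eval_eq_zero' _
        ((univ.filter fun z : ZMod p => z ^ n = 1).image fun z => (z + 3 * s ^ 2) * 4⁻¹)
      · intro q hq
        obtain ⟨z, hz, rfl⟩ := mem_image.1 hq
        have hz1 := (mem_filter.1 hz).2
        have h44 : (4 : ZMod p)⁻¹ * 4 = 1 := inv_mul_cancel₀ h4
        have h5 : 4 * ((z + 3 * s ^ 2) * 4⁻¹) - 3 * s ^ 2 = z := by
          linear_combination (z + 3 * s ^ 2) * h44
        have h6 := hvan (s, (z + 3 * s ^ 2) * 4⁻¹) (by
          simp only [NC, Set.mem_ofPred_eq, ← hn]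
          rw [h5]; exact hz1)
        simp only [ev_apply] at h6
        rw [eval_sub, h6, hh]
        simp only [eval_mul, eval_C, eval_sub, eval_pow, eval_X, eval_one]
        rw [h5, hz1, sub_self, mul_zero, sub_zero]
      · rw [card_image_of_injective, card_pow_eq_one (by omega)]
        · have h5 : (f.map (evalRingHom s) - h).natDegree ≤ n :=
            (natDegree_sub_le _ _).trans (max_le hgn hhn)
          have h6 : (f.map (evalRingHom s) - h).coeff n = 0 := by
            rw [coeff_sub, hgc, hhc, sub_self]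
          rw [← hn]
          by_contra hlt
          have h7 : (f.map (evalRingHom s) - h).natDegree = n := by omega
          rw [← h7] at h6
          have h8 : f.map (evalRingHom s) - h = 0 := leadingCoeff_eq_zero.1 h6
          rw [h8, natDegree_zero] at h7
          omega
        · intro z z' hzz
          have h5 : (4 : ZMod p)⁻¹ ≠ 0 := inv_ne_zero h4
          have h6 := mul_right_cancel₀ h5 hzz
          linear_combination h6
    intro q
    rw [ev_apply, sub_eq_zero.1 hdiff, hh]
    simp only [eval_mul, eval_C, eval_sub, eval_pow, eval_X, eval_one]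
  -- the line q = 0
  have hB0 : B = 0 := by
    set P : (ZMod p)[X] := f.coeff 0 with hP
    have hPd : P.natDegree ≤ n := by
      rcases F2_coeff hf 0 with h | h
      · rw [hP, h, natDegree_zero]; exact Nat.zero_le _
      · rw [hP]; omega
    have hPs : ∀ s, P.eval s = B * ((4 * 0 - 3 * s ^ 2) ^ n - 1) := by
      intro s
      rw [← hval s 0, ev_apply, ← coeff_zero_eq_eval_zero, coeff_map]
      rfl
    set κ : ZMod p := B * ((-3) ^ n - 1) with hκ
    have hzero : P - C κ = 0 := by
      apply eq_zero_of_natDegree_lt_card_of_eval_eq_zero' _ (univ.erase (0 : ZMod p))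
      · intro s hs
        have hs0 : s ≠ 0 := (mem_erase.1 hs).1
        have h5 : s ^ (p - 1) = 1 := ZMod.pow_card_sub_one_eq_one hs0
        have h6 : (4 * 0 - 3 * s ^ 2) ^ n = (-3 : ZMod p) ^ n := by
          have : (4 * 0 - 3 * s ^ 2 : ZMod p) = (-3) * s ^ 2 := by ring
          rw [this, mul_pow, ← pow_mul, hodd, h5, mul_one]
        rw [eval_sub, eval_C, hPs, h6, hκ, sub_self]
      · rw [card_erase_of_mem (mem_univ _), card_univ, ZMod.card]
        have h5 : (P - C κ).natDegree ≤ n := by
          refine (natDegree_sub_le _ _).trans (max_le hPd ?_)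
          rw [natDegree_C]; exact Nat.zero_le _
        omega
    have h5 := hPs 0
    rw [sub_eq_zero.1 hzero, eval_C, hκ] at h5
    have h6 : (4 * 0 - 3 * (0 : ZMod p) ^ 2) ^ n = 0 := by
      have : (4 * 0 - 3 * (0 : ZMod p) ^ 2) = 0 := by ring
      rw [this, zero_pow hn0.ne']
    rw [h6] at h5
    have h7 : B * (-3) ^ n = 0 := by linear_combination h5
    rcases mul_eq_zero.1 h7 with h8 | h8
    · exact h8
    · exact absurd (neg_eq_zero.1 (pow_eq_zero_iff hn0.ne' |>.1 h8)) h3
  -- all values vanish
  ext k m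
  rw [coeff_zero, coeff_zero]
  have hmap : ∀ s, f.map (evalRingHom s) = 0 := by
    intro s
    apply eq_zero_of_natDegree_lt_card_of_eval_eq_zero' _ (univ : Finset (ZMod p))
    · intro q _
      rw [← ev_apply, hval, hB0, zero_mul]
    · rw [card_univ, ZMod.card]
      have hgn : (f.map (evalRingHom s)).natDegree ≤ n := by
        rw [natDegree_le_iff_coeff_eq_zero]
        intro k hk
        rw [coeff_map, hfk k hk, map_zero]
      omega
  have hk : f.coeff k = 0 := by
    apply eq_zero_of_natDegree_lt_card_of_eval_eq_zero' _ (univ : Finset (ZMod p))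
    · intro s _
      have := congrArg (fun P => Polynomial.coeff P k) (hmap s)
      simpa only [coeff_map, coeff_zero, coe_evalRingHom] using this
    · rw [card_univ, ZMod.card]
      rcases F2_coeff hf k with h | h
      · rw [h, natDegree_zero]; exact hp.pos
      · omega
  rw [hk, coeff_zero]

/-- **Cubic rows.** -/
theorem cubic {M : ZMod p → ZMod p → ZMod p} (hM : IsDM M) (x : ZMod p → ZMod p)
    (hx : Function.Injective x) (α β c1 c2 c3 : ZMod p → ZMod p)
    (h : ∀ i j, M i j = α i + β j + c1 i * x j + c2 i * x j ^ 2 + c3 i * x j ^ 3) :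
    ∃ α β s t : ZMod p → ZMod p, Function.Bijective s ∧ Function.Bijective t ∧
      ∀ i x, M i x = α i + β x + s i * t x := by
  classical
  have hp : p.Prime := Fact.out
  rcases Nat.lt_or_ge 6 p with hp6 | hp6
  swap
  · exact small hM hp6
  have hxs : Function.Surjective x := (Finite.injective_iff_bijective.1 hx).2
  have hodd : 2 * ((p - 1) / 2) = p - 1 := by
    rcases hp.eq_two_or_odd with h | h
    · omega
    · omega
  have h2 : (2 : ZMod p) ≠ 0 := by
    intro h
    have h1 : ((2 : ℕ) : ZMod p) = 0 := by exact_mod_cast h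
    rw [ZMod.natCast_eq_zero_iff] at h1
    exact absurd (Nat.le_of_dvd (by norm_num) h1) (by omega)
  -- the functionals
  have hN : ∀ z ∈ NC p, Set.InjOn (fun i => c1 i + z.1 * c2 i + z.2 * c3 i)
      (Finset.univ : Finset (ZMod p)) := by
    intro z hz i _ i' _ he
    simp only at he
    have hz1 : (4 * z.2 - 3 * z.1 ^ 2) ^ ((p - 1) / 2) = 1 := hz
    have hz0 : 4 * z.2 - 3 * z.1 ^ 2 ≠ 0 := by
      intro h0
      rw [h0, zero_pow (by omega)] at hz1
      exact zero_ne_one hz1
    have hsq : IsSquare (4 * z.2 - 3 * z.1 ^ 2) := by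
      rw [ZMod.euler_criterion p hz0]
      have : p / 2 = (p - 1) / 2 := by omega
      rw [this]; exact hz1
    obtain ⟨d, hd⟩ := hsq
    have hd0 : d ≠ 0 := by
      rintro rfl
      exact hz0 (by rw [hd]; ring)
    obtain ⟨j, hj⟩ := hxs ((z.1 + d) * 2⁻¹)
    obtain ⟨j', hj'⟩ := hxs ((z.1 - d) * 2⁻¹)
    have h22 : (2 : ZMod p)⁻¹ * 2 = 1 := inv_mul_cancel₀ h2
    have hjj : j ≠ j' := by
      rintro rfl
      rw [hj] at hj'
      apply hd0
      have h3 : z.1 + d = z.1 - d := mul_right_cancel₀ (inv_ne_zero h2) hj'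
      have h4 : 2 * d = 0 := by linear_combination h3
      rcases mul_eq_zero.1 h4 with h5 | h5
      · exact absurd h5 h2
      · exact h5
    apply hM.col hjj
    rw [h, h, h, h]
    have hsum : x j + x j' = z.1 := by rw [hj, hj']; linear_combination z.1 * h22
    have hq : x j ^ 2 + x j * x j' + x j' ^ 2 = z.2 := by
      have h4 : (4 : ZMod p) ≠ 0 := by
        have : (4 : ZMod p) = 2 * 2 := by norm_num
        rw [this]; exact mul_ne_zero h2 h2
      apply mul_left_cancel₀ h4
      have h5 : 2 * x j = z.1 + d := by rw [hj]; linear_combination (z.1 + d) * h22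
      have h6 : 2 * x j' = z.1 - d := by rw [hj']; linear_combination (z.1 - d) * h22
      have h7 : 4 * (x j ^ 2 + x j * x j' + x j' ^ 2) =
        (2 * x j) ^ 2 + (2 * x j) * (2 * x j') + (2 * x j') ^ 2 := by ring
      rw [h7, h5, h6]
      linear_combination -hd
    rw [← hsum, ← hq] at he
    linear_combination (x j - x j') * he
  have key := inj_or_const_two (Finset.univ : Finset (ZMod p)) c1 c2 c3 (NC p) ((p - 1) / 2)
    (by omega) (generic_NC (by omega)) hN (by rw [card_univ, ZMod.card]; omega)
  have fin : ∀ (A B s t : ZMod p → ZMod p), (∀ i j, M i j = A i + B j + s i * t j) →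
      ∃ α β s t : ZMod p → ZMod p, Function.Bijective s ∧ Function.Bijective t ∧
        ∀ i x, M i x = α i + β x + s i * t x := by
    intro A B s t hst
    have hE : (Er1 M (fun i j => A i + B j + s i * t j) univ univ).card = 0 := by
      rw [card_eq_zero, Er1, filter_eq_empty_iff]
      intro z _
      rw [not_not]
      exact hst z.1 z.2
    apply rigid (R := univ) (C := univ) hM A B s t
    · rw [hE, Nat.mul_zero, Nat.zero_add, card_univ, ZMod.card]
      exact Nat.mul_le_mul_right p (by omega)
    · rw [hE, Nat.mul_zero, Nat.zero_add, card_univ, ZMod.card]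
      exact Nat.mul_le_mul_right p (by omega)
  by_cases hc3 : ∃ i i', c3 i ≠ c3 i'
  · obtain ⟨i, i', hne⟩ := hc3
    have hD : c3 i - c3 i' ≠ 0 := sub_ne_zero.2 hne
    have hii : i ≠ i' := fun h0 => hne (by rw [h0])
    have hcon : ∀ s, ∃ q κ, ∀ k, c1 k + s * c2 k + q * c3 k = κ := by
      intro s
      refine ⟨-((c1 i - c1 i') + s * (c2 i - c2 i')) / (c3 i - c3 i'), ?_⟩
      rcases key s (-((c1 i - c1 i') + s * (c2 i - c2 i')) / (c3 i - c3 i')) with h1 | ⟨κ, hκ⟩
      · exfalso
        apply hii
        apply h1 (mem_coe.2 (mem_univ _)) (mem_coe.2 (mem_univ _))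
        have h3 := div_mul_cancel₀ (-((c1 i - c1 i') + s * (c2 i - c2 i'))) hD
        simp only
        linear_combination h3
      · exact ⟨κ, fun k => hκ k (mem_univ _)⟩
    obtain ⟨q0, κ0, h0⟩ := hcon 0
    obtain ⟨q1, κ1, h1⟩ := hcon 1
    apply fin α (fun j => β j + κ0 * x j + (κ1 - κ0) * x j ^ 2) c3
      (fun j => x j ^ 3 + (q0 - q1) * x j ^ 2 - q0 * x j)
    intro i j
    rw [h]
    linear_combination (x j - x j ^ 2) * h0 i + x j ^ 2 * h1 i
  · have hc3' : ∀ i, c3 i = c3 0 := by
      intro i
      by_contra hne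
      exact hc3 ⟨i, 0, hne⟩
    by_cases hc2 : ∃ i i', c2 i ≠ c2 i'
    · obtain ⟨i, i', hne⟩ := hc2
      have hD : c2 i - c2 i' ≠ 0 := sub_ne_zero.2 hne
      have hii : i ≠ i' := fun h0 => hne (by rw [h0])
      have h3 := div_mul_cancel₀ (-(c1 i - c1 i')) hD
      set s := -(c1 i - c1 i') / (c2 i - c2 i') with hs
      rcases key s 0 with h1 | ⟨κ, hκ⟩
      · exfalso
        apply hii
        apply h1 (mem_coe.2 (mem_univ _)) (mem_coe.2 (mem_univ _))
        simp only
        linear_combination h3
      · apply fin α (fun j => β j + κ * x j + c3 0 * x j ^ 3) c2 (fun j => x j ^ 2 - s * x j)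
        intro i j
        rw [h, hc3' i]
        linear_combination x j * hκ i (mem_univ _)
    · have hc2' : ∀ i, c2 i = c2 0 := by
        intro i
        by_contra hne
        exact hc2 ⟨i, 0, hne⟩
      apply fin α (fun j => β j + c2 0 * x j ^ 2 + c3 0 * x j ^ 3) c1 x
      intro i j
      rw [h, hc3' i, hc2' i]
      ring

end Bi

end Pool.Agent.Lib.BHR_h63
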