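import Pool.Agent.Lib.BHR_h63.Core

set_option autoImplicit false

/-!
From Butson matrices of prime order to difference matrices.
-/

namespace Pool.Agent.Lib.BHR_h63

open Finset

variable {p : ℕ} [hpf : Fact p.Prime]

/-- the standard character -/
noncomputable def chi (a : ZMod p) : ℂ := ZMod.stdAddChar a

theorem chi_add (a b : ZMod p) : chi (a + b) = chi a * chi b := by
  simp only [chi]; exact AddChar.map_add_eq_mul _ a b

theorem chi_zero : chi (0 : ZMod p) = 1 := by
  simp only [chi]; exact AddChar.map_zero_eq_one _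

theorem chi_inj {a b : ZMod p} (h : chi a = chi b) : a = b := ZMod.injective_stdAddChar h

theorem chi_natCast (n : ℕ) :
    chi ((n : ℕ) : ZMod p) = Complex.exp (2 * (Real.pi : ℂ) * Complex.I * (n : ℂ) / (p : ℂ)) := by
  have := ZMod.stdAddChar_coe (N := p) (n : ℤ)
  simp only [chi]
  rw [← Int.cast_natCast, this]
  simp

theorem chi_pow (a : ZMod p) : chi a ^ p = 1 := by
  simp only [chi]
  rw [← AddChar.map_nsmul_eq_pow]
  simp

theorem chi_conj (a : ZMod p) : (starRingEnd ℂ) (chi a) = chi (-a) := by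
  simp only [chi]
  exact (AddChar.map_neg_eq_conj _ a).symm

theorem isPrimitiveRoot_chi_one : IsPrimitiveRoot (chi (1 : ZMod p)) p := by
  have h := Complex.isPrimitiveRoot_exp p hpf.out.ne_zero
  have h1 : chi (1 : ZMod p) = Complex.exp (2 * (Real.pi : ℂ) * Complex.I / (p : ℂ)) := by
    have := chi_natCast (p := p) 1
    simpa using this
  rw [h1]; exact h

theorem chi_one_pow (n : ℕ) : chi (1 : ZMod p) ^ n = chi (n : ZMod p) := by
  induction n with
  | zero => simp [chi_zero]
  | succ n ih => rw [pow_succ, ih, ← chi_add]; push_cast; rfl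

theorem exists_chi {x : ℂ} (hx : x ^ p = 1) : ∃ a : ZMod p, x = chi a := by
  obtain ⟨i, _, hi⟩ := (isPrimitiveRoot_chi_one (p := p)).eq_pow_of_pow_eq_one hx
  exact ⟨(i : ZMod p), by rw [← hi, chi_one_pow]⟩

/-- a vanishing sum of `p` roots of unity of order `p` contains each of them once -/
theorem inj_of_sum {ι : Type*} [Fintype ι] (hι : Fintype.card ι = p) (g : ι → ZMod p)
    (h : ∑ j, chi (g j) = 0) : Function.Injective g := by
  classical
  have hp : p.Prime := hpf.out
  set P : Polynomial ℚ := ∑ j, Polynomial.X ^ (g j).val with hP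
  have haev : Polynomial.aeval (chi (1 : ZMod p)) P = 0 := by
    rw [hP, map_sum, ← h]
    refine sum_congr rfl fun j _ => ?_
    rw [map_pow, Polynomial.aeval_X, chi_one_pow, ZMod.natCast_zmod_val]
  have hdvd : Polynomial.cyclotomic p ℚ ∣ P := by
    rw [Polynomial.cyclotomic_eq_minpoly_rat isPrimitiveRoot_chi_one hp.pos]
    exact minpoly.dvd _ _ haev
  obtain ⟨Q, hQ⟩ := hdvd
  have hP1 : P.eval 1 = p := by
    rw [hP, Polynomial.eval_finset_sum]
    simp [hι]
  have hP0 : P ≠ 0 := by
    intro h0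
    rw [h0, Polynomial.eval_zero] at hP1
    exact hp.ne_zero (by exact_mod_cast hP1.symm)
  have hQ0 : Q ≠ 0 := by
    rintro rfl
    exact hP0 (by rw [hQ, mul_zero])
  have hdeg : P.natDegree ≤ p - 1 := by
    rw [hP]
    apply Polynomial.natDegree_sum_le_of_forall_le
    intro j _
    rw [Polynomial.natDegree_X_pow]
    have := ZMod.val_lt (g j)
    omega
  have hQd : Q.natDegree = 0 := by
    have h1 := Polynomial.natDegree_mul (Polynomial.cyclotomic_ne_zero p ℚ) hQ0
    rw [← hQ, Polynomial.natDegree_cyclotomic, Nat.totient_prime hp] at h1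
    omega
  obtain ⟨q, hq⟩ := Polynomial.natDegree_eq_zero.1 hQd
  have hcoef : ∀ n, n < p → P.coeff n = q := by
    intro n hn
    rw [hQ, ← hq, Polynomial.coeff_mul_C, Polynomial.cyclotomic_prime]
    simp [Polynomial.finset_sum_coeff, Polynomial.coeff_X_pow, hn]
  have hq1 : q = 1 := by
    have h1 : P.eval 1 = p * q := by
      rw [hQ, ← hq, Polynomial.eval_mul, Polynomial.eval_C, Polynomial.cyclotomic_prime]
      simp [Polynomial.eval_finset_sum]
    rw [hP1] at h1
    have h2 : (p : ℚ) ≠ 0 := by exact_mod_cast hp.ne_zero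
    have h3 : (p : ℚ) * (q - 1) = 0 := by linear_combination -h1
    rcases mul_eq_zero.1 h3 with h4 | h4
    · exact absurd h4 h2
    · linear_combination h4
  intro j j' hj
  by_contra hne
  have h1 := hcoef (g j).val (ZMod.val_lt _)
  rw [hq1, hP, Polynomial.finset_sum_coeff] at h1
  simp only [Polynomial.coeff_X_pow] at h1
  rw [sum_boole] at h1
  have h2 : (univ.filter fun x => (g j).val = (g x).val).card = 1 := by exact_mod_cast h1
  obtain ⟨k, hk⟩ := card_eq_one.1 h2
  have h3 : j ∈ univ.filter fun x => (g j).val = (g x).val := by simp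
  have h4 : j' ∈ univ.filter fun x => (g j).val = (g x).val := by simp [hj]
  rw [hk, mem_singleton] at h3 h4
  exact hne (h3.trans h4.symm)

/-- **Robust uniqueness** for Butson matrices of prime order. -/
theorem cx_main (H K : Matrix (Fin p) (Fin p) ℂ) (hH : ∀ i j, H i j ^ p = 1)
    (hHH : H * H.conjTranspose = (p : ℂ) • (1 : Matrix (Fin p) (Fin p) ℂ))
    (σ τ : Equiv.Perm (Fin p)) (a b : Fin p → ℂ) (ha : ∀ i, a i ^ p = 1) (hb : ∀ j, b j ^ p = 1)
    (hK : ∀ i j, K i j = a i * b j *
      Complex.exp (2 * (Real.pi : ℂ) * Complex.I * (((σ i).val * (τ j).val : ℕ) : ℂ) / (p : ℂ)))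
    (R C : Finset (Fin p))
    (h1 : 32 * ((R ×ˢ C).filter fun z => H z.1 z.2 ≠ K z.1 z.2).card + 2 * p * p
      ≤ (R.card + 2 * C.card + 2) * p)
    (h2 : 32 * ((R ×ˢ C).filter fun z => H z.1 z.2 ≠ K z.1 z.2).card + p * p
      ≤ (2 * R.card + 2) * p) :
    ∃ σ' τ' : Equiv.Perm (Fin p), ∃ a' b' : Fin p → ℂ,
      (∀ i, a' i ^ p = 1) ∧ (∀ j, b' j ^ p = 1) ∧
      ∀ i j, H i j = a' i * b' j * Complex.exp (2 * (Real.pi : ℂ) * Complex.I *
        (((σ' i).val * (τ' j).val : ℕ) : ℂ) / (p : ℂ)) := by
  classical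
  have hp : p.Prime := hpf.out
  haveI : NeZero p := ⟨hp.ne_zero⟩
  choose m hm using fun i j => exists_chi (hH i j)
  choose α hα using fun i => exists_chi (ha i)
  choose β hβ using fun j => exists_chi (hb j)
  -- the residue of an index
  have hebij : Function.Bijective (fun k : Fin p => ((k.val : ℕ) : ZMod p)) := by
    rw [Fintype.bijective_iff_injective_and_card]
    refine ⟨fun k l hkl => ?_, by rw [Fintype.card_fin, ZMod.card]⟩
    have h3 : k.val % p = l.val % p := (ZMod.natCast_eq_natCast_iff' _ _ _).1 hkl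
    rw [Nat.mod_eq_of_lt k.isLt, Nat.mod_eq_of_lt l.isLt] at h3
    exact Fin.ext h3
  let e : Fin p ≃ ZMod p := Equiv.ofBijective _ hebij
  have he : ∀ k, e k = ((k.val : ℕ) : ZMod p) := fun k => rfl
  have hexp : ∀ k l : Fin p, Complex.exp (2 * (Real.pi : ℂ) * Complex.I *
      ((k.val * l.val : ℕ) : ℂ) / (p : ℂ)) = chi (e k * e l) := by
    intro k l
    rw [he, he, ← chi_natCast (p := p), Nat.cast_mul]
  let s : Fin p ≃ ZMod p := σ.trans e
  let t : Fin p ≃ ZMod p := τ.trans e
  have hKm : ∀ i j, K i j = chi (α i + β j + s i * t j) := by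
    intro i j
    rw [hK, hexp, chi_add, chi_add, ← hα, ← hβ]
    rfl
  -- rows
  have hrow : ∀ i i', i ≠ i' → Function.Injective fun j => m i j - m i' j := by
    intro i i' hne
    apply inj_of_sum (Fintype.card_fin p)
    have h3 := congrFun (congrFun hHH i) i'
    rw [Matrix.mul_apply, Matrix.smul_apply, Matrix.one_apply_ne hne, smul_zero] at h3
    rw [← h3]
    refine sum_congr rfl fun j _ => ?_
    rw [Matrix.conjTranspose_apply, hm i j, hm i' j]
    have : star (chi (m i' j)) = chi (-(m i' j)) := chi_conj _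
    rw [this, ← chi_add, sub_eq_add_neg]
  let M : ZMod p → ZMod p → ZMod p := fun u v =>
    m (s.symm u) (t.symm v) - α (s.symm u) - β (t.symm v)
  have hMdef : ∀ u v, M u v = m (s.symm u) (t.symm v) - α (s.symm u) - β (t.symm v) :=
    fun u v => rfl
  have hMst : ∀ i j, M (s i) (t j) = m i j - α i - β j := by
    intro i j
    rw [hMdef, s.symm_apply_apply, t.symm_apply_apply]
  have hM : IsDM M := by
    intro u u' v v' hu hv he2
    apply hv
    apply t.symm.injective
    apply hrow (s.symm u) (s.symm u') fun h => hu (s.symm.injective h)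
    rw [hMdef, hMdef, hMdef, hMdef] at he2
    simp only
    linear_combination he2
  have hiff : ∀ i j, H i j ≠ K i j ↔ M (s i) (t j) ≠ s i * t j := by
    intro i j
    rw [hMst, not_iff_not, hm i j, hKm]
    constructor
    · intro h
      have := chi_inj h
      linear_combination this
    · intro h
      congr 1
      linear_combination h
  have hErr : (Err M (R.map s.toEmbedding) (C.map t.toEmbedding)).card
      = ((R ×ˢ C).filter fun z => H z.1 z.2 ≠ K z.1 z.2).card := by
    symm
    apply card_bij (fun z _ => (s z.1, t z.2))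
    · intro z hz
      rw [mem_filter, mem_product] at hz
      rw [mem_Err]
      refine ⟨⟨?_, ?_⟩, (hiff _ _).1 hz.2⟩
      · exact mem_map.2 ⟨z.1, hz.1.1, rfl⟩
      · exact mem_map.2 ⟨z.2, hz.1.2, rfl⟩
    · intro z _ z' _ h
      rw [Prod.mk.injEq] at h
      exact Prod.ext (s.injective h.1) (t.injective h.2)
    · intro w hw
      rw [mem_Err] at hw
      obtain ⟨⟨h3, h4⟩, h5⟩ := hw
      obtain ⟨i, hi, hi2⟩ := mem_map.1 h3
      obtain ⟨j, hj, hj2⟩ := mem_map.1 h4
      have hi3 : s i = w.1 := hi2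
      have hj3 : t j = w.2 := hj2
      refine ⟨(i, j), ?_, ?_⟩
      · rw [mem_filter, mem_product]
        refine ⟨⟨hi, hj⟩, (hiff i j).2 ?_⟩
        rw [hi3, hj3]; exact h5
      · rw [hi3, hj3]
  obtain ⟨A, B, s', t', hs', ht', hfin⟩ := robust (M := M) (R := R.map s.toEmbedding)
    (C := C.map t.toEmbedding) hM (by rw [hErr, card_map, card_map]; exact h1)
    (by rw [hErr, card_map]; exact h2)
  let S : ZMod p ≃ ZMod p := Equiv.ofBijective s' hs'
  let T : ZMod p ≃ ZMod p := Equiv.ofBijective t' ht'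
  refine ⟨(s.trans S).trans e.symm, (t.trans T).trans e.symm,
    fun i => chi (α i + A (s i)), fun j => chi (β j + B (t j)),
    fun i => chi_pow _, fun j => chi_pow _, fun i j => ?_⟩
  rw [hexp, ← chi_add, ← chi_add, hm i j]
  congr 1
  have h3 := hMst i j
  rw [hfin] at h3
  have h4 : e (((s.trans S).trans e.symm) i) = s' (s i) := by
    simp only [Equiv.trans_apply, Equiv.apply_symm_apply]; rfl
  have h5 : e (((t.trans T).trans e.symm) j) = t' (t j) := by
    simp only [Equiv.trans_apply, Equiv.apply_symm_apply]; rfl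
  rw [h4, h5]
  linear_combination -h3

end Pool.Agent.Lib.BHR_h63
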