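import Pool.Agent.Lib.BHR_h63.Lac

set_option autoImplicit false

/-!
A difference matrix over a prime field which contains a large part of the multiplication table
as a submatrix is equivalent to the multiplication table.
-/

namespace Pool.Agent.Lib.BHR_h63

open Finset

variable {p : ℕ} [Fact p.Prime]

/-- difference matrices: the differences of two rows take every value at most once -/
def IsDM (M : ZMod p → ZMod p → ZMod p) : Prop :=
  ∀ i i' j j', i ≠ i' → j ≠ j' → M i j - M i' j ≠ M i j' - M i' j'

theorem IsDM.swap {M : ZMod p → ZMod p → ZMod p} (h : IsDM M) : IsDM (fun i j => M j i) := by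
  intro i i' j j' hi hj he
  apply h j j' i i' hj hi
  linear_combination he

theorem IsDM.row {M : ZMod p → ZMod p → ZMod p} (h : IsDM M) {i i' : ZMod p} (hi : i ≠ i')
    {j j' : ZMod p} (he : M i j - M i' j = M i j' - M i' j') : j = j' := by
  by_contra hj
  exact h i i' j j' hi hj he

theorem IsDM.col {M : ZMod p → ZMod p → ZMod p} (h : IsDM M) {j j' : ZMod p} (hj : j ≠ j')
    {i i' : ZMod p} (he : M i j - M i j' = M i' j - M i' j') : i = i' := by
  by_contra hi
  apply h i i' j j' hi hj
  linear_combination he

/-- a function on a set of `r` points which avoids `c` slopes with `r + 2 c + 2 ≥ 2 p` is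
affine (the vertical direction is avoided as well) -/
theorem affine_of_slopes (U : Finset (ZMod p)) (f : ZMod p → ZMod p) (N : Finset (ZMod p))
    (hN : ∀ z ∈ N, ∀ i ∈ U, ∀ i' ∈ U, f i - z * i = f i' - z * i' → i = i')
    (h : 2 * p ≤ U.card + 2 * N.card + 2) : ∃ s c, ∀ i ∈ U, f i = s * i + c := by
  classical
  have hU : U.card ≤ p := by
    have := Finset.card_le_univ U
    rwa [ZMod.card] at this
  by_cases h1 : U.card ≤ 1
  · rw [Finset.card_le_one] at h1
    rcases U.eq_empty_or_nonempty with h0 | ⟨i, hi⟩
    · exact ⟨0, 0, by simp [h0]⟩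
    · refine ⟨0, f i, fun j hj => ?_⟩
      rw [h1 j hj i hi]; ring
  rw [not_le, Finset.one_lt_card] at h1
  obtain ⟨i, hi, i', hi', hne⟩ := h1
  have hne' : i - i' ≠ 0 := sub_ne_zero.2 hne
  -- a slope which occurs
  set d : ZMod p := (f i - f i') / (i - i') with hd
  have hdm : d * (i - i') = f i - f i' := by rw [hd]; field_simp
  have hdN : d ∉ N := by
    intro hdN
    apply hne
    apply hN d hdN i hi i' hi'
    linear_combination -hdm
  -- the other directions, the vertical one included
  set g : ZMod p → ZMod p := fun s => -(s - d)⁻¹ with hg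
  have hginj : Set.InjOn g N := by
    intro s _ s' _ hss
    simp only [hg, neg_inj, inv_inj] at hss
    linear_combination hss
  have hg0 : (0 : ZMod p) ∉ N.image g := by
    rw [Finset.mem_image]
    rintro ⟨s, hs, h0⟩
    simp only [hg, neg_eq_zero, inv_eq_zero] at h0
    exact hdN ((sub_eq_zero.1 h0) ▸ hs)
  set N' : Finset (ZMod p) := insert 0 (N.image g) with hN'
  have hN'c : N'.card = N.card + 1 := by
    rw [hN', Finset.card_insert_of_notMem hg0, Finset.card_image_of_injOn hginj]
  have hinj0 : ∀ z ∈ N', Set.InjOn (fun u => u + z * (f u - d * u)) U := by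
    intro z hz x hx y hy hxy
    simp only at hxy
    rw [hN', Finset.mem_insert] at hz
    rcases hz with rfl | hz
    · linear_combination hxy
    · obtain ⟨s, hs, rfl⟩ := Finset.mem_image.1 hz
      have hsd : s - d ≠ 0 := sub_ne_zero.2 fun h => hdN (h ▸ hs)
      apply hN s hs x hx y hy
      have h3 : (s - d) * (s - d)⁻¹ = 1 := mul_inv_cancel₀ hsd
      simp only [hg] at hxy
      linear_combination (-(s - d)) * hxy - (f x - d * x - (f y - d * y)) * h3
  have key := inj_or_const U (fun u => u) (fun u => f u - d * u) N' hinj0 hU (by omega)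
  by_cases hall : ∀ z : ZMod p, Set.InjOn (fun u => u + z * (f u - d * u)) U
  · -- only the slope d occurs
    refine ⟨d, f i - d * i, fun j hj => ?_⟩
    by_contra hjne
    have h3 : f j - d * j - (f i - d * i) ≠ 0 := fun h => hjne (by linear_combination h)
    have h5 := div_mul_cancel₀ (-(j - i)) h3
    have h4 := hall (-(j - i) / (f j - d * j - (f i - d * i))) hj hi (by
      simp only
      linear_combination h5)
    rw [h4] at h3
    exact h3 (by ring)
  · rw [not_forall] at hall
    obtain ⟨z, hz⟩ := hall
    rcases key z with h3 | ⟨c, hc⟩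
    · exact absurd h3 hz
    · have hz0 : z ≠ 0 := by
        rintro rfl
        apply hne
        have h4 := hc i hi
        have h5 := hc i' hi'
        linear_combination h4 - h5
      refine ⟨d - z⁻¹, z⁻¹ * c, fun j hj => ?_⟩
      have h4 := hc j hj
      have h5 : z⁻¹ * z = 1 := inv_mul_cancel₀ hz0
      linear_combination z⁻¹ * h4 - (f j - d * j) * h5

/-- **Submatrix theorem.** -/
theorem grid {M : ZMod p → ZMod p → ZMod p} (hM : IsDM M) (R C : Finset (ZMod p))
    (hRC : ∀ i ∈ R, ∀ x ∈ C, M i x = i * x) (h1 : 2 * p ≤ R.card + 2 * C.card + 2)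
    (h2 : p ≤ 2 * R.card + 2) (hR2 : 2 ≤ R.card) :
    ∃ α β s t : ZMod p → ZMod p, Function.Bijective s ∧ Function.Bijective t ∧
      ∀ i x, M i x = α i + β x + s i * t x := by
  classical
  -- the columns are affine on R
  have hcol : ∀ x, ∃ s c, ∀ i ∈ R, M i x = s * i + c := by
    intro x
    by_cases hx : x ∈ C
    · exact ⟨x, 0, fun i hi => by rw [hRC i hi x hx]; ring⟩
    · apply affine_of_slopes R (fun i => M i x) C _ h1
      intro y hy i hi i' hi' he
      have hxy : x ≠ y := fun h => hx (h ▸ hy)
      apply hM.col hxy
      rw [hRC i hi y hy, hRC i' hi' y hy]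
      linear_combination he
  choose t b ht using hcol
  obtain ⟨i0, hi0, i1, hi1, hne⟩ := Finset.one_lt_card.1 (by omega : 1 < R.card)
  have htinj : Function.Injective t := by
    intro x y hxy
    by_contra hne2
    apply hne
    apply hM.col hne2
    rw [ht x i0 hi0, ht x i1 hi1, ht y i0 hi0, ht y i1 hi1, hxy]
    ring
  have htbij : Function.Bijective t := Finite.injective_iff_bijective.1 htinj
  -- the inverse of t
  let e : ZMod p ≃ ZMod p := Equiv.ofBijective t htbij
  have he : ∀ x, e.symm (t x) = x := fun x => e.symm_apply_apply x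
  have he' : ∀ u, t (e.symm u) = u := fun u => e.apply_symm_apply u
  -- the rows
  have hrow : ∀ k, ∃ s c, ∀ x, M k x - b x = s * t x + c := by
    intro k
    by_cases hk : k ∈ R
    · exact ⟨k, 0, fun x => by rw [ht x k hk]; ring⟩
    · obtain ⟨s, c, hs⟩ := affine_of_slopes (p := p) Finset.univ
        (fun u => M k (e.symm u) - b (e.symm u)) R (by
          intro i hi u _ u' _ hu
          have hki : k ≠ i := fun h => hk (h ▸ hi)
          have h3 : e.symm u = e.symm u' := by
            apply hM.row hki
            rw [ht _ i hi, ht _ i hi, he', he']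
            linear_combination hu
          exact e.symm.injective h3) (by
          rw [Finset.card_univ, ZMod.card]; omega)
      refine ⟨s, c, fun x => ?_⟩
      have := hs (t x) (Finset.mem_univ _)
      simpa only [he] using this
  choose s c hs using hrow
  have hsinj : Function.Injective s := by
    intro k k' hk
    by_contra hne2
    have h01 : (0 : ZMod p) ≠ 1 := zero_ne_one
    apply h01
    apply hM.row hne2
    have h3 := hs k 0
    have h4 := hs k 1
    have h5 := hs k' 0
    have h6 := hs k' 1
    rw [← hk] at h5 h6
    linear_combination h3 - h4 - h5 + h6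
  refine ⟨c, b, s, t, Finite.injective_iff_bijective.1 hsinj, htbij, fun i x => ?_⟩
  linear_combination hs i x

/-- for `p ≤ 5` every difference matrix is equivalent to the multiplication table -/
theorem small {M : ZMod p → ZMod p → ZMod p} (hM : IsDM M) (hp6 : p ≤ 6) :
    ∃ α β s t : ZMod p → ZMod p, Function.Bijective s ∧ Function.Bijective t ∧
      ∀ i x, M i x = α i + β x + s i * t x := by
  classical
  have h01 : (0 : ZMod p) ≠ 1 := zero_ne_one
  have hinj : Function.Injective fun x => M 1 x - M 0 x := fun x y hxy =>
    hM.row h01.symm hxy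
  let e : ZMod p ≃ ZMod p := Equiv.ofBijective _ (Finite.injective_iff_bijective.1 hinj)
  have he : ∀ x, e x = M 1 x - M 0 x := fun x => rfl
  have hM' : IsDM fun i u => M i (e.symm u) - M 0 (e.symm u) := by
    intro i i' j j' hi hj hij
    apply hM i i' (e.symm j) (e.symm j') hi fun h => hj (e.symm.injective h)
    linear_combination hij
  obtain ⟨α, β, s, t, hs, ht, h⟩ := grid hM' {0, 1} Finset.univ (by
      intro i hi u _
      rw [Finset.mem_insert, Finset.mem_singleton] at hi
      rcases hi with rfl | rfl
      · ring
      · have := he (e.symm u)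
        rw [e.apply_symm_apply] at this
        rw [← this]; ring) (by
      rw [Finset.card_univ, ZMod.card]; omega) (by
      rw [Finset.card_pair h01]; omega) (by rw [Finset.card_pair h01])
  refine ⟨α, fun x => β (e x) + M 0 x, s, fun x => t (e x), hs, ht.comp e.bijective,
    fun i x => ?_⟩
  have h3 := h i (e x)
  rw [e.symm_apply_apply] at h3
  linear_combination h3

end Pool.Agent.Lib.BHR_h63
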