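import Pool.Agent.Lib.BHR_h63.Grid

set_option autoImplicit false

/-!
The error set of a difference matrix which is close to the multiplication table: every error in
a light row and a light column is the centre of a hyperbola which carries many errors.
-/

namespace Pool.Agent.Lib.BHR_h63

open Finset

/-- union bound for sets which meet pairwise in at most two points -/
theorem sum_card_le {α β : Type*} [DecidableEq β] (G : α → Finset β) (Z : Finset α)
    (h2 : ∀ z ∈ Z, ∀ z' ∈ Z, z ≠ z' → (G z ∩ G z').card ≤ 2) :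
    ∑ z ∈ Z, (G z).card ≤ (Z.biUnion G).card + Z.card * (Z.card - 1) := by
  classical
  induction Z using Finset.induction_on with
  | empty => simp
  | insert a Z ha ih =>
    have ih' := ih fun z hz z' hz' => h2 z (mem_insert_of_mem hz) z' (mem_insert_of_mem hz')
    rw [sum_insert ha, biUnion_insert, card_insert_of_notMem ha]
    have h3 := card_union_add_card_inter (G a) (Z.biUnion G)
    have h4 : (G a ∩ Z.biUnion G).card ≤ 2 * Z.card := by
      rw [inter_biUnion]
      refine card_biUnion_le.trans ?_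
      have : ∀ z ∈ Z, (G a ∩ G z).card ≤ 2 := fun z hz =>
        h2 a (mem_insert_self _ _) z (mem_insert_of_mem hz) fun h => ha (h ▸ hz)
      refine (sum_le_sum this).trans ?_
      rw [sum_const, smul_eq_mul, mul_comm]
    have h5 : (Z.card + 1) * (Z.card + 1 - 1) = Z.card * (Z.card - 1) + 2 * Z.card := by
      rcases Z.card with _ | n
      · simp
      · simp only [Nat.add_sub_cancel]; ring
    rw [h5]
    omega

variable {p : ℕ} [Fact p.Prime]

/-- the errors in the rows of `R` and columns of `C` -/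
def Err (M : ZMod p → ZMod p → ZMod p) (R C : Finset (ZMod p)) : Finset (ZMod p × ZMod p) :=
  (R ×ˢ C).filter fun z => M z.1 z.2 ≠ z.1 * z.2

/-- errors in the row `i` -/
def Er (M : ZMod p → ZMod p → ZMod p) (R C : Finset (ZMod p)) (i : ZMod p) :
    Finset (ZMod p × ZMod p) := (Err M R C).filter fun z => z.1 = i

/-- errors in the column `x` -/
def Ec (M : ZMod p → ZMod p → ZMod p) (R C : Finset (ZMod p)) (x : ZMod p) :
    Finset (ZMod p × ZMod p) := (Err M R C).filter fun z => z.2 = x

/-- the errors on the hyperbola with centre `z` -/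
def Hy (M : ZMod p → ZMod p → ZMod p) (R C : Finset (ZMod p)) (z : ZMod p × ZMod p) :
    Finset (ZMod p × ZMod p) :=
  (Err M R C).filter fun w => (w.1 - z.1) * (w.2 - z.2) = z.1 * z.2 - M z.1 z.2

theorem mem_Err {M : ZMod p → ZMod p → ZMod p} {R C : Finset (ZMod p)} {z : ZMod p × ZMod p} :
    z ∈ Err M R C ↔ (z.1 ∈ R ∧ z.2 ∈ C) ∧ M z.1 z.2 ≠ z.1 * z.2 := by
  simp [Err]

theorem mem_Hy {M : ZMod p → ZMod p → ZMod p} {R C : Finset (ZMod p)} {z w : ZMod p × ZMod p} :
    w ∈ Hy M R C z ↔ w ∈ Err M R C ∧ (w.1 - z.1) * (w.2 - z.2) = z.1 * z.2 - M z.1 z.2 := by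
  simp [Hy]

variable {M : ZMod p → ZMod p → ZMod p} {R C : Finset (ZMod p)}

theorem Hy_inj_fst {z : ZMod p × ZMod p} (hz : z ∈ Err M R C) {w w' : ZMod p × ZMod p}
    (hw : w ∈ Hy M R C z) (hw' : w' ∈ Hy M R C z) (h : w.1 = w'.1) : w = w' := by
  have hd : z.1 * z.2 - M z.1 z.2 ≠ 0 := fun h0 => (mem_Err.1 hz).2 (by linear_combination -h0)
  have h1 := (mem_Hy.1 hw).2
  have h2 := (mem_Hy.1 hw').2
  have h3 : w.1 - z.1 ≠ 0 := by
    intro h0
    rw [h0, zero_mul] at h1
    exact hd h1.symm
  refine Prod.ext h ?_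
  rw [← h] at h2
  have h4 : (w.1 - z.1) * (w.2 - w'.2) = 0 := by linear_combination h1 - h2
  rcases mul_eq_zero.1 h4 with h5 | h5
  · exact absurd h5 h3
  · exact sub_eq_zero.1 h5

theorem Hy_inj_snd {z : ZMod p × ZMod p} (hz : z ∈ Err M R C) {w w' : ZMod p × ZMod p}
    (hw : w ∈ Hy M R C z) (hw' : w' ∈ Hy M R C z) (h : w.2 = w'.2) : w = w' := by
  have hd : z.1 * z.2 - M z.1 z.2 ≠ 0 := fun h0 => (mem_Err.1 hz).2 (by linear_combination -h0)
  have h1 := (mem_Hy.1 hw).2
  have h2 := (mem_Hy.1 hw').2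
  have h3 : w.2 - z.2 ≠ 0 := by
    intro h0
    rw [h0, mul_zero] at h1
    exact hd h1.symm
  refine Prod.ext ?_ h
  rw [← h] at h2
  have h4 : (w.2 - z.2) * (w.1 - w'.1) = 0 := by linear_combination h1 - h2
  rcases mul_eq_zero.1 h4 with h5 | h5
  · exact absurd h5 h3
  · exact sub_eq_zero.1 h5

/-- a hyperbola is rich -/
theorem card_Hy (hM : IsDM M) {z : ZMod p × ZMod p} (hz : z ∈ Err M R C) :
    R.card + C.card + 1 ≤ (Hy M R C z).card + (Er M R C z.1).card + (Ec M R C z.2).card + p := by
  classical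
  obtain ⟨i, x⟩ := z
  simp only
  obtain ⟨⟨hiR, hxC⟩, hne⟩ := mem_Err.1 hz
  simp only at hiR hxC hne
  set c : ZMod p := M i x - i * x with hc
  have hc0 : c ≠ 0 := sub_ne_zero.2 hne
  set y : ZMod p → ZMod p := fun j => x + c / (i - j) with hy
  have hyx : ∀ j, j ≠ i → y j ≠ x := by
    intro j hj h
    have h1 : c / (i - j) = 0 := by
      simp only [hy] at h
      linear_combination h
    rw [div_eq_zero_iff] at h1
    rcases h1 with h1 | h1
    · exact hc0 h1
    · exact hj (sub_eq_zero.1 h1).symm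
  have hymul : ∀ j, j ≠ i → (i - j) * (y j - x) = c := by
    intro j hj
    have h1 : i - j ≠ 0 := sub_ne_zero.2 (Ne.symm hj)
    simp only [hy]
    field_simp
    ring
  have hyinj : ∀ j j', j ≠ i → j' ≠ i → y j = y j' → j = j' := by
    intro j j' hj hj' h
    have h1 := hymul j hj
    have h2 := hymul j' hj'
    rw [h] at h1
    have h3 : (j' - j) * (y j' - x) = 0 := by linear_combination h1 - h2
    rcases mul_eq_zero.1 h3 with h4 | h4
    · exact (sub_eq_zero.1 h4).symm
    · exact absurd (sub_eq_zero.1 h4) (hyx j' hj')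
  set J := R.erase i with hJ
  have hJc : J.card + 1 = R.card := card_erase_add_one hiR
  set J0 := J.filter fun j => ¬ M j x ≠ j * x with hJ0
  set J1 := J.filter fun j => M j x ≠ j * x with hJ1
  set K := J0.filter fun j => y j ∉ C with hK
  set K0 := J0.filter fun j => ¬ y j ∉ C with hK0
  set J2 := K0.filter fun j => M i (y j) ≠ i * y j with hJ2
  set J3 := K0.filter fun j => ¬ M i (y j) ≠ i * y j with hJ3
  have hs1 : J1.card + J0.card = J.card := card_filter_add_card_filter_not _
  have hs0 : K.card + K0.card = J0.card := card_filter_add_card_filter_not _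
  have hs2 : J2.card + J3.card = K0.card := card_filter_add_card_filter_not _
  have hc0' : K.card ≤ (univ \ C).card := by
    apply card_le_card_of_injOn y
    · intro j hj
      rw [mem_coe, hK, mem_filter] at hj
      rw [mem_coe, mem_sdiff]
      exact ⟨mem_univ _, hj.2⟩
    · intro j hj j' hj' h
      rw [mem_coe, hK, mem_filter, hJ0, mem_filter, hJ, mem_erase] at hj hj'
      exact hyinj j j' hj.1.1.1 hj'.1.1.1 h
  have hCc : (univ \ C).card + C.card = p := by
    rw [card_sdiff_add_card_eq_card (subset_univ _), card_univ, ZMod.card]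
  have hc1 : J1.card ≤ ((Ec M R C x).erase (i, x)).card := by
    apply card_le_card_of_injOn (fun j => (j, x))
    · intro j hj
      rw [mem_coe, hJ1, mem_filter, hJ, mem_erase] at hj
      rw [mem_coe, mem_erase]
      refine ⟨fun h => hj.1.1 (by simpa using congrArg Prod.fst h), ?_⟩
      rw [Ec, mem_filter, mem_Err]
      exact ⟨⟨⟨hj.1.2, hxC⟩, hj.2⟩, rfl⟩
    · intro j _ j' _ h
      simpa using congrArg Prod.fst h
  have hc2 : J2.card ≤ ((Er M R C i).erase (i, x)).card := by
    apply card_le_card_of_injOn (fun j => (i, y j))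
    · intro j hj
      rw [mem_coe, hJ2, mem_filter, hK0, mem_filter, hJ0, mem_filter, hJ, mem_erase,
        not_not] at hj
      rw [mem_coe, mem_erase]
      refine ⟨fun h => hyx j hj.1.1.1.1 (by simpa using congrArg Prod.snd h), ?_⟩
      rw [Er, mem_filter, mem_Err]
      exact ⟨⟨⟨hiR, not_not.1 hj.1.2⟩, hj.2⟩, rfl⟩
    · intro j hj j' hj' h
      rw [mem_coe, hJ2, mem_filter, hK0, mem_filter, hJ0, mem_filter, hJ, mem_erase] at hj hj'
      exact hyinj j j' hj.1.1.1.1 hj'.1.1.1.1 (by simpa using congrArg Prod.snd h)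
  have hc3 : J3.card ≤ (Hy M R C (i, x)).card := by
    apply card_le_card_of_injOn (fun j => (j, y j))
    · intro j hj
      rw [mem_coe, hJ3, mem_filter, hK0, mem_filter, hJ0, mem_filter, hJ, mem_erase, not_not,
        not_not, not_not] at hj
      obtain ⟨⟨⟨⟨hji, hjR⟩, hjx⟩, hyC⟩, hiy⟩ := hj
      rw [mem_coe, mem_Hy, mem_Err]
      refine ⟨⟨⟨hjR, hyC⟩, fun hjy => ?_⟩, ?_⟩
      · simp only at hjy
        apply hyx j hji
        symm
        apply hM.row (Ne.symm hji)
        rw [hjx, hjy, hiy]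
        have := hymul j hji
        linear_combination hc - this
      · simp only
        have := hymul j hji
        linear_combination -this - hc
    · intro j _ j' _ h
      simpa using congrArg Prod.fst h
  have he1 : ((Ec M R C x).erase (i, x)).card + 1 = (Ec M R C x).card :=
    card_erase_add_one (by rw [Ec, mem_filter]; exact ⟨hz, rfl⟩)
  have he2 : ((Er M R C i).erase (i, x)).card + 1 = (Er M R C i).card :=
    card_erase_add_one (by rw [Er, mem_filter]; exact ⟨hz, rfl⟩)
  omega

/-- two hyperbolas meet in at most two points -/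
theorem card_inter_Hy {z z' : ZMod p × ZMod p} (hz : z ∈ Err M R C)
    (hne : z ≠ z') : (Hy M R C z ∩ Hy M R C z').card ≤ 2 := by
  classical
  set d : ZMod p := z.1 * z.2 - M z.1 z.2 with hd
  set d' : ZMod p := z'.1 * z'.2 - M z'.1 z'.2 with hd'
  have hd0 : d ≠ 0 := fun h0 => (mem_Err.1 hz).2 (by linear_combination -h0 - hd)
  set P : Polynomial (ZMod p) := Polynomial.C (z.2 - z'.2) * Polynomial.X ^ 2 +
    Polynomial.C (d - d' - (z.1 + z'.1) * (z.2 - z'.2)) * Polynomial.X +
    Polynomial.C (z.1 * z'.1 * (z.2 - z'.2) - z'.1 * d + z.1 * d') with hP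
  have hP0 : P ≠ 0 := by
    intro h0
    have h2 : P.coeff 2 = 0 := by rw [h0]; simp
    have h1 : P.coeff 1 = 0 := by rw [h0]; simp
    have h3 : P.coeff 0 = 0 := by rw [h0]; simp
    simp only [hP, Polynomial.coeff_add, Polynomial.coeff_C_mul, Polynomial.coeff_X_pow,
      Polynomial.coeff_X, Polynomial.coeff_C] at h1 h2 h3
    norm_num at h1 h2 h3
    rw [h2] at h1 h3
    have h4 : d = d' := by linear_combination h1
    have h5 : d * (z.1 - z'.1) = 0 := by rw [← h4] at h3; linear_combination h3
    rcases mul_eq_zero.1 h5 with h6 | h6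
    · exact hd0 h6
    · exact hne (Prod.ext (sub_eq_zero.1 h6) (sub_eq_zero.1 h2))
  have hdeg : P.natDegree ≤ 2 := Polynomial.natDegree_quadratic_le
  have h1 : (Hy M R C z ∩ Hy M R C z').card ≤ P.roots.toFinset.card := by
    apply card_le_card_of_injOn (fun w => w.1)
    · intro w hw
      rw [mem_coe, mem_inter] at hw
      have h1 := (mem_Hy.1 hw.1).2
      have h2 := (mem_Hy.1 hw.2).2
      rw [← hd] at h1
      rw [← hd'] at h2
      rw [mem_coe, Multiset.mem_toFinset, Polynomial.mem_roots hP0, Polynomial.IsRoot.def, hP]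
      simp only [Polynomial.eval_add, Polynomial.eval_mul, Polynomial.eval_C, Polynomial.eval_X,
        Polynomial.eval_pow]
      linear_combination (-(w.1 - z'.1)) * h1 + (w.1 - z.1) * h2
    · intro w hw w' hw' h
      rw [mem_coe, mem_inter] at hw hw'
      exact Hy_inj_fst hz hw.1 hw'.1 h
  exact h1.trans ((Multiset.toFinset_card_le _).trans ((Polynomial.card_roots' P).trans hdeg))

end Pool.Agent.Lib.BHR_h63
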