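import Mathlib

set_option autoImplicit false

/-!
Directions determined by few points over a prime field: if the functions `a + z b` on a set `U`
with `r ≤ p` points are injective for at least `p - r / 2` values `z`, then for every `z` the
function `a + z b` is injective or constant (Redei, Lovasz and Schrijver, Szonyi).
-/

namespace Pool.Agent.Lib.BHR_h63

open Polynomial Finset

/-- weighted degree bound: the coefficient of `X ^ m` has degree at most `d - m` -/
def Wt {K : Type*} [CommRing K] (d : ℕ) (P : K[X][X]) : Prop :=
  ∀ m, P.coeff m = 0 ∨ (P.coeff m).natDegree + m ≤ d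

section Wt

variable {K : Type*} [Field K]

theorem Wt.zero (d : ℕ) : Wt (K := K) d 0 := fun m => Or.inl (by simp)

theorem Wt.sub {d : ℕ} {P Q : K[X][X]} (hP : Wt d P) (hQ : Wt d Q) : Wt d (P - Q) := by
  intro m
  by_cases h : (P - Q).coeff m = 0
  · exact Or.inl h
  · right
    rw [coeff_sub] at h ⊢
    rcases hP m with h1 | h1 <;> rcases hQ m with h2 | h2
    · exact absurd (by rw [h1, h2, sub_zero]) h
    · rw [h1, zero_sub, natDegree_neg]; exact h2
    · rw [h2, sub_zero]; exact h1
    · have := natDegree_sub_le (P.coeff m) (Q.coeff m)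
      omega

theorem Wt.mul {d e : ℕ} {P Q : K[X][X]} (hP : Wt d P) (hQ : Wt e Q) : Wt (d + e) (P * Q) := by
  intro m
  by_cases hm : m ≤ d + e
  · right
    rw [coeff_mul]
    have : (∑ x ∈ antidiagonal m, P.coeff x.1 * Q.coeff x.2).natDegree ≤ d + e - m := by
      apply natDegree_sum_le_of_forall_le
      rintro ⟨i, j⟩ hij
      rw [HasAntidiagonal.mem_antidiagonal] at hij
      simp only at hij ⊢
      rcases hP i with h1 | h1
      · rw [h1, zero_mul, natDegree_zero]; exact Nat.zero_le _
      rcases hQ j with h2 | h2
      · rw [h2, mul_zero, natDegree_zero]; exact Nat.zero_le _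
      refine natDegree_mul_le.trans ?_
      omega
    omega
  · left
    rw [coeff_mul]
    apply Finset.sum_eq_zero
    rintro ⟨i, j⟩ hij
    rw [HasAntidiagonal.mem_antidiagonal] at hij
    simp only at hij ⊢
    rcases hP i with h1 | h1
    · rw [h1, zero_mul]
    rcases hQ j with h2 | h2
    · rw [h2, mul_zero]
    omega

theorem Wt.C_mul_X_pow {d : ℕ} (c : K[X]) (m : ℕ) (h : c.natDegree + m ≤ d) :
    Wt d (C c * X ^ m) := by
  intro k
  rw [coeff_C_mul_X_pow]
  split_ifs with hk
  · right; subst hk; exact h
  · left; rfl

theorem Wt.X_pow (m : ℕ) : Wt (K := K) m (X ^ m) := by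
  intro k
  rw [coeff_X_pow]
  split_ifs with hk
  · right; subst hk; simp
  · left; rfl

theorem Wt.lin (a b : K) : Wt (K := K) 1 (X - C (C a + X * C b)) := by
  intro k
  rcases k with _ | _ | k
  · right
    simp only [coeff_sub, coeff_X_zero, coeff_C_zero, zero_sub, natDegree_neg]
    have : (C a + X * C b : K[X]).natDegree ≤ 1 := by compute_degree
    omega
  · right; simp [coeff_X, coeff_C]
  · left; simp [coeff_X]

theorem Wt.prod {ι : Type*} (U : Finset ι) (a b : ι → K) :
    Wt U.card (∏ u ∈ U, (X - C (C (a u) + X * C (b u))) : K[X][X]) := by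
  classical
  induction U using Finset.induction_on with
  | empty =>
    simp only [prod_empty, card_empty]
    simpa using (Wt.X_pow (K := K) 0)
  | insert u U hu ih =>
    rw [prod_insert hu, card_insert_of_notMem hu, add_comm U.card 1]
    exact (Wt.lin _ _).mul ih

theorem Wt.modByMonic {d r : ℕ} {R : K[X][X]} (hR : Wt r R) (hm : R.Monic) (hr : R.natDegree = r) :
    ∀ (n : ℕ) (P : K[X][X]), P.natDegree ≤ n → Wt d P → Wt d (P %ₘ R) := by
  intro n
  induction n with
  | zero =>
    intro P hP hW
    by_cases hd : P.degree < R.degree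
    · rwa [(modByMonic_eq_self_iff hm).2 hd]
    · -- R has degree 0, so R = 1
      have hP0 : P.natDegree = 0 := by omega
      have hR0 : R.natDegree = 0 := by
        by_contra h
        apply hd
        refine lt_of_le_of_lt degree_le_natDegree ?_
        rw [degree_eq_natDegree hm.ne_zero]
        exact_mod_cast (by omega : P.natDegree < R.natDegree)
      have hR1 : R = 1 := hm.natDegree_eq_zero.1 hR0
      rw [hR1, modByMonic_one]
      exact Wt.zero d
  | succ n ih =>
    intro P hP hW
    by_cases hd : P.degree < R.degree
    · rwa [(modByMonic_eq_self_iff hm).2 hd]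
    rw [not_lt] at hd
    by_cases hP0 : P = 0
    · rw [hP0, zero_modByMonic]; exact Wt.zero d
    set Q : K[X][X] := C P.leadingCoeff * X ^ (P.natDegree - R.natDegree) with hQ
    have hlt := div_wf_lemma ⟨hd, hP0⟩ hm
    have hle : R.natDegree ≤ P.natDegree := natDegree_le_natDegree hd
    have hWQ : Wt (d - r) Q := by
      apply Wt.C_mul_X_pow
      rcases hW P.natDegree with h | h
      · exact absurd h (by simpa using hP0)
      · have : P.coeff P.natDegree = P.leadingCoeff := rfl
        rw [this] at h
        omega
    have hdr : r ≤ d := by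
      rcases hW P.natDegree with h | h
      · exact absurd h (by simpa using hP0)
      · omega
    have hWRQ : Wt d (R * Q) := by
      have := hR.mul hWQ
      rwa [Nat.add_sub_cancel' hdr] at this
    have hW' : Wt d (P - R * Q) := hW.sub hWRQ
    have hmod : (P - R * Q) %ₘ R = P %ₘ R := by
      rw [sub_modByMonic, mul_comm R Q, (modByMonic_eq_zero_iff_dvd hm).2 (dvd_mul_left R Q), sub_zero]
    rw [← hmod]
    apply ih _ _ hW'
    by_cases h0 : P - R * Q = 0
    · rw [h0]; simp
    · have := natDegree_lt_natDegree h0 hlt
      omega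

end Wt

section Main

variable {p : ℕ} [Fact p.Prime]

/-- **Directions over a prime field.** -/
theorem inj_or_const {ι : Type*} (U : Finset ι) (a b : ι → ZMod p) (N : Finset (ZMod p))
    (hN : ∀ z ∈ N, Set.InjOn (fun u => a u + z * b u) U) (hr : U.card ≤ p)
    (h : 2 * p ≤ U.card + 2 * N.card) (z : ZMod p) :
    Set.InjOn (fun u => a u + z * b u) U ∨ ∃ c, ∀ u ∈ U, a u + z * b u = c := by
  classical
  have hp : p.Prime := Fact.out
  have hp2 := hp.two_le
  by_cases hinj : Set.InjOn (fun u => a u + z * b u) U
  · exact Or.inl hinj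
  right
  have hzN : z ∉ N := fun hz => hinj (hN z hz)
  have hNp : N.card < p := by
    have h1 : N.card < Fintype.card (ZMod p) := by
      rw [← Finset.card_univ]
      exact Finset.card_lt_card ⟨Finset.subset_univ _, fun h => hzN (h (Finset.mem_univ z))⟩
    rwa [ZMod.card] at h1
  have h2 : 2 ≤ U.card := by
    by_contra hlt
    apply hinj
    intro x hx y hy _
    exact Finset.card_le_one.1 (by omega) x hx y hy
  set R : (ZMod p)[X][X] := ∏ u ∈ U, (X - C (C (a u) + X * C (b u))) with hRdef
  have hRm : R.Monic := monic_prod_of_monic _ _ fun _ _ => monic_X_sub_C _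
  have hRd : R.natDegree = U.card := by
    rw [hRdef, natDegree_prod_of_monic _ _ fun _ _ => monic_X_sub_C _,
      Finset.sum_congr rfl fun u _ => natDegree_X_sub_C (C (a u) + X * C (b u)), Finset.sum_const,
      smul_eq_mul, mul_one]
  set S : (ZMod p)[X][X] := X ^ p %ₘ R with hS
  have hWS : Wt p S :=
    Wt.modByMonic (Wt.prod U a b) hRm hRd p _ (natDegree_X_pow_le p) (Wt.X_pow p)
  have hRw : ∀ w : ZMod p, R.map (evalRingHom w) = ∏ u ∈ U, (X - C (a u + w * b u)) := by
    intro w
    rw [hRdef, Polynomial.map_prod]
    refine Finset.prod_congr rfl fun u _ => ?_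
    rw [Polynomial.map_sub, map_X, map_C, coe_evalRingHom, eval_add, eval_mul, eval_X, eval_C,
      eval_C]
  have hRwm : ∀ w : ZMod p, (R.map (evalRingHom w)).Monic := fun w => hRm.map _
  have hSw : ∀ w : ZMod p, S.map (evalRingHom w) = X ^ p %ₘ (R.map (evalRingHom w)) := by
    intro w
    rw [hS, map_modByMonic _ hRm]
    simp
  -- multisets of values
  have hmul : ∀ w : ZMod p, R.map (evalRingHom w)
      = ((U.val.map (fun u => a u + w * b u)).map (fun c => X - C c)).prod := by
    intro w
    rw [hRw, Multiset.map_map]
    rfl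
  have hXp0 : (X ^ p - X : (ZMod p)[X]) ≠ 0 := FiniteField.X_pow_card_sub_X_ne_zero _ hp.one_lt
  have hrootsXp : (X ^ p - X : (ZMod p)[X]).roots = Finset.univ.val := by
    have := FiniteField.roots_X_pow_card_sub_X (ZMod p)
    rwa [ZMod.card] at this
  -- at the good values the remainder is X
  have hgood : ∀ w ∈ N, S.map (evalRingHom w) = X := by
    intro w hw
    have hnd : (U.val.map (fun u => a u + w * b u)).Nodup :=
      Multiset.Nodup.map_on (fun x hx y hy hxy => hN w hw hx hy hxy) U.nodup
    have hdvd : R.map (evalRingHom w) ∣ (X ^ p - X : (ZMod p)[X]) := by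
      rw [hmul w, Multiset.prod_X_sub_C_dvd_iff_le_roots hXp0, hrootsXp]
      exact (Multiset.le_iff_subset hnd).2 fun c _ => Finset.mem_univ c
    have h0 := (modByMonic_eq_zero_iff_dvd (hRwm w)).2 hdvd
    rw [sub_modByMonic, sub_eq_zero] at h0
    have hdeg : (R.map (evalRingHom w)).degree = ((U.card : ℕ) : WithBot ℕ) := by
      rw [hRm.degree_map, degree_eq_natDegree hRm.ne_zero, hRd]
    rw [hSw, h0, modByMonic_eq_self_iff (hRwm w), degree_X, hdeg]
    exact_mod_cast h2
  -- most coefficients of the remainder vanish identically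
  have hcoeff : ∀ m, m ≠ 1 → p < m + N.card → S.coeff m = 0 := by
    intro m hm1 hm
    rcases hWS m with h0 | h0
    · exact h0
    apply eq_zero_of_natDegree_lt_card_of_eval_eq_zero' _ N
    · intro w hw
      have h1 := congrArg (fun P => Polynomial.coeff P m) (hgood w hw)
      simp only [coeff_map, coe_evalRingHom, coeff_X] at h1
      rwa [if_neg (fun h => hm1 h.symm)] at h1
    · omega
  set rz : (ZMod p)[X] := S.map (evalRingHom z) with hrz
  have hrzd : rz.natDegree ≤ p - N.card := by
    rw [natDegree_le_iff_coeff_eq_zero]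
    intro m hm
    rw [hrz, coeff_map, hcoeff m (by omega) (by omega), map_zero]
  set Rz : (ZMod p)[X] := R.map (evalRingHom z) with hRz
  have hRzm : Rz.Monic := hRm.map _
  set s : Multiset (ZMod p) := U.val.map (fun u => a u + z * b u) with hs
  have hRzs : Rz = (s.map (fun c => X - C c)).prod := hmul z
  set G : (ZMod p)[X] := X ^ p - rz with hG
  have hRG : Rz ∣ G := by
    have h0 : rz = X ^ p %ₘ Rz := hSw z
    rw [modByMonic_eq_sub_mul_div] at h0
    refine ⟨X ^ p /ₘ Rz, ?_⟩
    rw [hG]
    nth_rewrite 1 [h0]
    ring
  have hNpos : 0 < N.card := by omega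
  have hG0 : G ≠ 0 := by
    intro h0
    have h1 : (X ^ p : (ZMod p)[X]) = rz := sub_eq_zero.1 h0
    have h3 := natDegree_X_pow (R := ZMod p) p
    rw [h1] at h3
    omega
  have hsG : s ≤ G.roots := by
    rw [← Multiset.prod_X_sub_C_dvd_iff_le_roots hG0, ← hRzs]
    exact hRG
  have hGder : derivative G = - derivative rz := by
    rw [hG, derivative_sub, derivative_X_pow]
    simp
  have hcard : Multiset.card s = U.card := by rw [hs, Multiset.card_map]; rfl
  by_cases hprod : (X - rz) * derivative rz = 0
  · rcases mul_eq_zero.1 hprod with h0 | h0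
    · -- rz = X : all values are different
      exfalso
      have hrX : rz = X := (sub_eq_zero.1 h0).symm
      apply hinj
      have hle : s ≤ (Finset.univ : Finset (ZMod p)).val := by
        rw [← hrootsXp]
        rw [hG, hrX] at hsG
        exact hsG
      have hnd : s.Nodup := Multiset.nodup_of_le hle Finset.univ.nodup
      have := (Multiset.nodup_map_iff_inj_on U.nodup).1 hnd
      intro x hx y hy hxy
      exact this x hx y hy hxy
    · -- derivative zero : rz is constant
      have hconst : rz = C (rz.coeff 0) := by
        ext m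
        rcases m with _ | m
        · simp
        · rw [coeff_C_succ]
          by_cases hm : m + 1 < p
          · have h1 := congrArg (fun P => Polynomial.coeff P m) h0
            simp only [coeff_derivative, coeff_zero] at h1
            rcases mul_eq_zero.1 h1 with h3 | h3
            · exact h3
            · exfalso
              have h4 : ((m + 1 : ℕ) : ZMod p) = 0 := by exact_mod_cast h3
              rw [ZMod.natCast_eq_zero_iff] at h4
              exact absurd (Nat.le_of_dvd (Nat.succ_pos m) h4) (by omega)
          · exact coeff_eq_zero_of_natDegree_lt (by omega)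
      refine ⟨rz.coeff 0, fun u hu => ?_⟩
      have hmem : (a u + z * b u) ∈ G.roots :=
        Multiset.mem_of_le hsG (Multiset.mem_map_of_mem _ hu)
      have hroot := (mem_roots hG0).1 hmem
      rw [IsRoot.def, hG, eval_sub, eval_pow, eval_X, ZMod.pow_card, hconst, eval_C,
        sub_eq_zero] at hroot
      simpa using hroot
  · exfalso
    have hsr : s ≤ ((X - rz) * derivative rz).roots := by
      rw [Multiset.le_iff_count]
      intro c
      rcases Nat.eq_zero_or_pos (Multiset.count c s) with h0 | h0
      · rw [h0]; exact Nat.zero_le _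
      have hcG : Multiset.count c s ≤ rootMultiplicity c G := by
        rw [← count_roots]
        exact Multiset.le_iff_count.1 hsG c
      have hpow : (X - C c) ^ (Multiset.count c s) ∣ G := (le_rootMultiplicity_iff hG0).1 hcG
      have hder : (X - C c) ^ (Multiset.count c s - 1) ∣ derivative rz := by
        have h1 := pow_sub_one_dvd_derivative_of_pow_dvd hpow
        rw [hGder] at h1
        exact (dvd_neg).1 h1
      have hlin : (X - C c) ∣ (X - rz) := by
        have hroot : IsRoot G c := dvd_iff_isRoot.1 (dvd_trans (dvd_pow_self _ (by omega)) hpow)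
        rw [dvd_iff_isRoot, IsRoot.def]
        rw [IsRoot.def, hG, eval_sub, eval_pow, eval_X, ZMod.pow_card] at hroot
        rw [eval_sub, eval_X]
        exact hroot
      rw [count_roots, le_rootMultiplicity_iff hprod]
      have h1 : (X - C c) ^ (Multiset.count c s)
          = (X - C c) * (X - C c) ^ (Multiset.count c s - 1) := by
        rw [← pow_succ']
        congr 1
        omega
      rw [h1]
      exact mul_dvd_mul hlin hder
    have h1 : Multiset.card s ≤ ((X - rz) * derivative rz).natDegree :=
      (Multiset.card_le_card hsr).trans (card_roots' _)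
    have h3 : (X - rz).natDegree ≤ p - N.card := by
      refine (natDegree_sub_le _ _).trans ?_
      rw [natDegree_X]
      exact max_le (by omega) hrzd
    have h4 : (derivative rz).natDegree ≤ p - N.card - 1 :=
      (natDegree_derivative_le rz).trans (by omega)
    have h5 := natDegree_mul_le (p := X - rz) (q := derivative rz)
    omega

end Main

end Pool.Agent.Lib.BHR_h63
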