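import Pool.Agent.Lib.BHR_h63.Rigid

set_option autoImplicit false

/-!
Difference matrices with a large submatrix of normalised rank at most two.
-/

namespace Pool.Agent.Lib.BHR_h63

open Finset

variable {p : ℕ} [Fact p.Prime] {M : ZMod p → ZMod p → ZMod p} {R C : Finset (ZMod p)}

/-- graph form: `s` is injective on `R` and `t` is injective on `C` -/
theorem rank_two_graph (hM : IsDM M) (hRC : 2 * p ≤ R.card + C.card + 3) (α β s s' t t' : ZMod p → ZMod p)
    (hs : Set.InjOn s R) (ht : Set.InjOn t C)
    (h : ∀ i ∈ R, ∀ j ∈ C, M i j = α i + β j + s i * t j + s' i * t' j) :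
    ∃ α β s t : ZMod p → ZMod p, ∀ i ∈ R, ∀ j ∈ C, M i j = α i + β j + s i * t j := by
  classical
  have hp : 0 < p := (Fact.out : p.Prime).pos
  -- s' as a function of s on R
  let f : ZMod p → ZMod p := fun x => if hx : ∃ i ∈ R, s i = x then s' hx.choose else 0
  have hf : ∀ i ∈ R, f (s i) = s' i := by
    intro i hi
    have hx : ∃ i' ∈ R, s i' = s i := ⟨i, hi, rfl⟩
    have h1 : f (s i) = s' hx.choose := dif_pos hx
    rw [h1]
    congr 1
    exact hs hx.choose_spec.1 hi hx.choose_spec.2
  let g : ZMod p → ZMod p := fun x => if hx : ∃ j ∈ C, t j = x then t' hx.choose else 0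
  have hg : ∀ j ∈ C, g (t j) = t' j := by
    intro j hj
    have hx : ∃ j' ∈ C, t j' = t j := ⟨j, hj, rfl⟩
    have h1 : g (t j) = t' hx.choose := dif_pos hx
    rw [h1]
    congr 1
    exact ht hx.choose_spec.1 hj hx.choose_spec.2
  -- slopes avoided by f
  set N : Finset (ZMod p) := univ.filter fun z =>
    ∀ x ∈ R.image s, ∀ x' ∈ R.image s, f x - z * x = f x' - z * x' → x = x' with hN
  have hRs : (R.image s).card = R.card := card_image_of_injOn hs
  have hCt : (C.image t).card = C.card := card_image_of_injOn ht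
  by_cases hcase : 2 * p ≤ R.card + 2 * N.card + 2
  · -- f is affine
    obtain ⟨m, c, hmc⟩ := affine_of_slopes (R.image s) f N
      (fun z hz x hx x' hx' he => (mem_filter.1 hz).2 x hx x' hx' he) (by rw [hRs]; exact hcase)
    refine ⟨α, fun j => β j + c * t' j, s, fun j => t j + m * t' j, fun i hi j hj => ?_⟩
    have h1 := hmc (s i) (mem_image_of_mem s hi)
    rw [hf i hi] at h1
    rw [h i hi j hj, h1]
    ring
  · -- g is affine
    set B : Finset (ZMod p) := (univ \ N).erase 0 with hB
    have hNc : (univ \ N).card + N.card = p := by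
      rw [card_sdiff_add_card_eq_card (subset_univ _), card_univ, ZMod.card]
    have hBc : (univ \ N).card ≤ B.card + 1 := by
      rw [hB]
      exact Nat.le_add_of_sub_le pred_card_le_card_erase
    have hinj : Set.InjOn (fun z : ZMod p => -z⁻¹) B := by
      intro z _ z' _ he
      simp only [neg_inj, inv_inj] at he
      exact he
    have hN'c : (B.image fun z : ZMod p => -z⁻¹).card = B.card := card_image_of_injOn hinj
    obtain ⟨m, c, hmc⟩ := affine_of_slopes (C.image t) g (B.image fun z : ZMod p => -z⁻¹) (by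
      intro z hz y hy y' hy' he
      obtain ⟨w, hw, rfl⟩ := mem_image.1 hz
      rw [hB, mem_erase, mem_sdiff] at hw
      obtain ⟨hw0, _, hwN⟩ := hw
      rw [hN, mem_filter] at hwN
      simp only [mem_univ, true_and, not_forall] at hwN
      obtain ⟨x, hx, x', hx', hxx, hne⟩ := hwN
      obtain ⟨i, hi, rfl⟩ := mem_image.1 hx
      obtain ⟨i', hi', rfl⟩ := mem_image.1 hx'
      obtain ⟨j, hj, rfl⟩ := mem_image.1 hy
      obtain ⟨j', hj', rfl⟩ := mem_image.1 hy'
      rw [hf i hi, hf i' hi'] at hxx
      rw [hg j hj, hg j' hj'] at he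
      have hii : i ≠ i' := fun h0 => hne (by rw [h0])
      congr 1
      apply hM.row hii
      rw [h i hi j hj, h i' hi' j hj, h i hi j' hj', h i' hi' j' hj']
      have h1 : w * w⁻¹ = 1 := mul_inv_cancel₀ hw0
      -- (s i - s i') * (t j + w t' j) is the same at j and j'
      have h2 : t j + w * t' j = t j' + w * t' j' := by
        linear_combination w * he - (t j - t j') * h1
      have h3 : s' i - s' i' = w * (s i - s i') := by linear_combination hxx
      linear_combination (s i - s i') * h2 + (t' j - t' j') * h3) (by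
      rw [hCt, hN'c]; omega)
    refine ⟨fun i => α i + s' i * c, β, fun i => s i + m * s' i, t, fun i hi j hj => ?_⟩
    have h1 := hmc (t j) (mem_image_of_mem t hj)
    rw [hg j hj] at h1
    rw [h i hi j hj, h1]
    ring

/-- **Rank two.** -/
theorem rank_two (hM : IsDM M) (hRC : 2 * p ≤ R.card + C.card + 3)
    (α β s s' t t' : ZMod p → ZMod p)
    (h : ∀ i ∈ R, ∀ j ∈ C, M i j = α i + β j + s i * t j + s' i * t' j) :
    ∃ α β s t : ZMod p → ZMod p, Function.Bijective s ∧ Function.Bijective t ∧
      ∀ i x, M i x = α i + β x + s i * t x := by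
  classical
  have hp : 0 < p := (Fact.out : p.Prime).pos
  rcases Nat.lt_or_ge 6 p with hp6 | hp6
  swap
  · exact small hM hp6
  have hRp : R.card ≤ p := by
    have := Finset.card_le_univ R
    rwa [ZMod.card] at this
  have hCp : C.card ≤ p := by
    have := Finset.card_le_univ C
    rwa [ZMod.card] at this
  obtain ⟨i0, hi0, i1, hi1, hi01⟩ := one_lt_card.1 (by omega : 1 < R.card)
  obtain ⟨j0, hj0, j1, hj1, hj01⟩ := one_lt_card.1 (by omega : 1 < C.card)
  -- dual bases
  set d1 := s i0 - s i1 with hd1
  set d2 := s' i0 - s' i1 with hd2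
  set e1 := t j0 - t j1 with he1
  set e2 := t' j0 - t' j1 with he2
  have hde : d1 * e1 + d2 * e2 ≠ 0 := by
    intro h0
    apply hj01
    apply hM.row hi01
    rw [h i0 hi0 j0 hj0, h i1 hi1 j0 hj0, h i0 hi0 j1 hj1, h i1 hi1 j1 hj1]
    rw [hd1, hd2, he1, he2] at h0
    linear_combination h0
  set c := d1 * e1 + d2 * e2 with hc
  have hcc : c * c⁻¹ = 1 := mul_inv_cancel₀ hde
  obtain ⟨α', β', s1, t1, h1⟩ := rank_two_graph hM hRC α β
    (fun i => (s i * e1 + s' i * e2) * c⁻¹) (fun i => (s i * d2 - s' i * d1) * c⁻¹)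
    (fun j => d1 * t j + d2 * t' j) (fun j => e2 * t j - e1 * t' j)
    (by
      intro i hi i' hi' he
      simp only at he
      apply hM.col hj01
      rw [h i hi j0 hj0, h i hi j1 hj1, h i' hi' j0 hj0, h i' hi' j1 hj1]
      have h2 : s i * e1 + s' i * e2 = s i' * e1 + s' i' * e2 := by
        linear_combination c * he - (s i * e1 + s' i * e2 - s i' * e1 - s' i' * e2) * hcc
      rw [he1, he2] at h2
      linear_combination h2)
    (by
      intro j hj j' hj' he
      simp only at he
      apply hM.row hi01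
      rw [h i0 hi0 j hj, h i1 hi1 j hj, h i0 hi0 j' hj', h i1 hi1 j' hj']
      rw [hd1, hd2] at he
      linear_combination he)
    (by
      intro i hi j hj
      rw [h i hi j hj]
      have : (s i * e1 + s' i * e2) * c⁻¹ * (d1 * t j + d2 * t' j) +
          (s i * d2 - s' i * d1) * c⁻¹ * (e2 * t j - e1 * t' j) =
          (c * c⁻¹) * (s i * t j + s' i * t' j) := by rw [hc]; ring
      rw [add_assoc (α i + β j), add_assoc (α i + β j), this, hcc, one_mul])
  have hE : (Er1 M (fun i j => α' i + β' j + s1 i * t1 j) R C).card = 0 := by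
    rw [card_eq_zero, Er1, filter_eq_empty_iff]
    intro z hz
    rw [mem_product] at hz
    rw [not_not]
    exact h1 z.1 hz.1 z.2 hz.2
  apply rigid (R := R) (C := C) hM α' β' s1 t1
  · rw [hE, Nat.mul_zero, Nat.zero_add]
    exact Nat.mul_le_mul_right p (by omega)
  · rw [hE, Nat.mul_zero, Nat.zero_add]
    exact Nat.mul_le_mul_right p (by omega)

end Pool.Agent.Lib.BHR_h63
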