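import Pool.Agent.Lib.BHR_h63.Core

set_option autoImplicit false

/-!
Rigidity: a difference matrix which is close to a matrix `α i + β j + s i * t j`, with arbitrary
`s` and `t`, on a large submatrix is equivalent to the multiplication table.
-/

namespace Pool.Agent.Lib.BHR_h63

open Finset

variable {p : ℕ} [Fact p.Prime] {M : ZMod p → ZMod p → ZMod p} {R C : Finset (ZMod p)}

/-- the errors -/
def Er1 (M N : ZMod p → ZMod p → ZMod p) (R C : Finset (ZMod p)) : Finset (ZMod p × ZMod p) :=
  (R ×ˢ C).filter fun z => M z.1 z.2 ≠ N z.1 z.2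

theorem mem_Er1 {M N : ZMod p → ZMod p → ZMod p} {R C : Finset (ZMod p)} {z : ZMod p × ZMod p} :
    z ∈ Er1 M N R C ↔ (z.1 ∈ R ∧ z.2 ∈ C) ∧ M z.1 z.2 ≠ N z.1 z.2 := by
  simp [Er1]

theorem Er1_swap_card (M N : ZMod p → ZMod p → ZMod p) (R C : Finset (ZMod p)) :
    (Er1 (fun i j => M j i) (fun i j => N j i) C R).card = (Er1 M N R C).card := by
  apply card_bij (fun z _ => (z.2, z.1))
  · intro z hz
    rw [mem_Er1] at hz ⊢
    exact ⟨⟨hz.1.2, hz.1.1⟩, hz.2⟩
  · intro z _ z' _ h
    rw [Prod.mk.injEq] at h
    exact Prod.ext h.2 h.1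
  · intro z hz
    rw [mem_Er1] at hz
    exact ⟨(z.2, z.1), mem_Er1.2 ⟨⟨hz.1.2, hz.1.1⟩, hz.2⟩, rfl⟩

/-- the rows with few errors have different slopes, and there are few other rows -/
theorem slopes (hM : IsDM M) (R C : Finset (ZMod p)) (α β s t : ZMod p → ZMod p) :
    ∃ R1 ⊆ R, Set.InjOn s R1 ∧ (R.card - R1.card) * (C.card - 1) ≤
      2 * (Er1 M (fun i j => α i + β j + s i * t j) R C).card := by
  classical
  set E := Er1 M (fun i j => α i + β j + s i * t j) R C with hE
  refine ⟨R.filter fun i => 2 * (E.filter fun z => z.1 = i).card < C.card - 1,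
    filter_subset _ _, ?_, ?_⟩
  · intro i hi i' hi' hs
    rw [mem_coe, mem_filter] at hi hi'
    by_contra hne
    -- common agreements
    set A := C.filter fun j => M i j = α i + β j + s i * t j ∧ M i' j = α i' + β j + s i' * t j
      with hA
    have hA1 : A.card ≤ 1 := by
      rw [card_le_one]
      intro j hj j' hj'
      rw [hA, mem_filter] at hj hj'
      apply hM.row hne
      rw [hj.2.1, hj.2.2, hj'.2.1, hj'.2.2, hs]
      ring
    have hsub : C ⊆ A ∪ ((E.filter fun z => z.1 = i).image Prod.snd ∪
        (E.filter fun z => z.1 = i').image Prod.snd) := by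
      intro j hj
      by_cases h1 : M i j = α i + β j + s i * t j
      · by_cases h2 : M i' j = α i' + β j + s i' * t j
        · exact mem_union_left _ (mem_filter.2 ⟨hj, h1, h2⟩)
        · refine mem_union_right _ (mem_union_right _ (mem_image.2 ⟨(i', j), ?_, rfl⟩))
          exact mem_filter.2 ⟨mem_Er1.2 ⟨⟨hi'.1, hj⟩, h2⟩, rfl⟩
      · refine mem_union_right _ (mem_union_left _ (mem_image.2 ⟨(i, j), ?_, rfl⟩))
        exact mem_filter.2 ⟨mem_Er1.2 ⟨⟨hi.1, hj⟩, h1⟩, rfl⟩
    have h1 := card_le_card hsub
    have h2 := card_union_le A ((E.filter fun z => z.1 = i).image Prod.snd ∪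
        (E.filter fun z => z.1 = i').image Prod.snd)
    have h3 := card_union_le ((E.filter fun z => z.1 = i).image Prod.snd)
        ((E.filter fun z => z.1 = i').image Prod.snd)
    have h4 := card_image_le (s := E.filter fun z => z.1 = i) (f := Prod.snd)
    have h5 := card_image_le (s := E.filter fun z => z.1 = i') (f := Prod.snd)
    omega
  · have hsplit := card_filter_add_card_filter_not (s := R)
      (fun i => 2 * (E.filter fun z => z.1 = i).card < C.card - 1)
    set B := R.filter fun i => ¬ 2 * (E.filter fun z => z.1 = i).card < C.card - 1 with hB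
    have h1 : R.card - (R.filter fun i => 2 * (E.filter fun z => z.1 = i).card
        < C.card - 1).card = B.card := by omega
    rw [h1]
    have h2 : ∑ i ∈ B, (C.card - 1) ≤ ∑ i ∈ B, 2 * (E.filter fun z => z.1 = i).card :=
      sum_le_sum fun i hi => not_lt.1 (mem_filter.1 hi).2
    rw [sum_const, smul_eq_mul, ← mul_sum] at h2
    refine h2.trans (Nat.mul_le_mul_left 2 ?_)
    rw [card_eq_sum_card_fiberwise (f := fun z : ZMod p × ZMod p => z.1) (s := E) (t := univ)
      (fun _ _ => mem_coe.2 (mem_univ _))]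
    exact sum_le_sum_of_subset (subset_univ _)

/-- **Rigidity**, difference matrix form. -/
theorem rigid (hM : IsDM M) (α β s t : ZMod p → ZMod p)
    (h1 : 48 * (Er1 M (fun i j => α i + β j + s i * t j) R C).card + 2 * p * p
      ≤ (R.card + 2 * C.card + 2) * p)
    (h2 : 48 * (Er1 M (fun i j => α i + β j + s i * t j) R C).card + p * p
      ≤ (2 * R.card + 2) * p) :
    ∃ α β s t : ZMod p → ZMod p, Function.Bijective s ∧ Function.Bijective t ∧
      ∀ i x, M i x = α i + β x + s i * t x := by
  classical
  have hp : 0 < p := (Fact.out : p.Prime).pos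
  rcases Nat.lt_or_ge 6 p with hp6 | hp6
  swap
  · exact small hM hp6
  have hRp : R.card ≤ p := by
    have := Finset.card_le_univ R
    rwa [ZMod.card] at this
  have hCp : C.card ≤ p := by
    have := Finset.card_le_univ C
    rwa [ZMod.card] at this
  set E := Er1 M (fun i j => α i + β j + s i * t j) R C with hE
  obtain ⟨R1, hR1, hs1, hRc⟩ := slopes hM R C α β s t
  obtain ⟨C1, hC1, ht1, hCc⟩ := slopes hM.swap C R β α t s
  have hsw : (Er1 (fun i j => M j i) (fun i j => β i + α j + t i * s j) C R).card = E.card := by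
    have := Er1_swap_card M (fun i j => α i + β j + s i * t j) R C
    rw [hE, ← this]
    congr 1
    unfold Er1
    apply filter_congr
    intro z _
    rw [not_iff_not]
    constructor
    · intro h; rw [h]; ring
    · intro h; rw [h]; ring
  rw [hsw] at hCc
  rw [← hE] at hRc
  have hR1c := card_le_card hR1
  have hC1c := card_le_card hC1
  -- sizes
  have h3 : 2 * p ≤ R.card + 2 * C.card + 2 :=
    Nat.le_of_mul_le_mul_right (le_trans (Nat.le_add_left _ _) h1) hp
  have h4 : p ≤ 2 * R.card + 2 :=
    Nat.le_of_mul_le_mul_right (le_trans (Nat.le_add_left _ _) h2) hp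
  -- the numerical conditions
  have hnum : 3 * (p * (R.card - R1.card)) ≤ 16 * E.card ∧
      3 * (p * (C.card - C1.card)) ≤ 16 * E.card := by
    obtain ⟨a, ha⟩ := Nat.exists_eq_add_of_le h3
    obtain ⟨b, hb⟩ := Nat.exists_eq_add_of_le h4
    set w : ℕ := min a b with hw
    have hwa : w ≤ a := min_le_left _ _
    have hwb : w ≤ b := min_le_right _ _
    have hEw : 48 * E.card ≤ w * p := by
      rw [ha, add_mul] at h1
      rw [hb, add_mul] at h2
      have h5 : 48 * E.card ≤ a * p := by omega
      have h6 : 48 * E.card ≤ b * p := by omega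
      rcases min_choice a b with h | h
      · rw [hw, h]; exact h5
      · rw [hw, h]; exact h6
    set x := R.card - R1.card with hx
    set y := C.card - C1.card with hy
    rcases Nat.eq_zero_or_pos E.card with h0 | h0
    · rw [h0, Nat.mul_zero] at hRc hCc
      have hc1 : C.card - 1 ≠ 0 := by omega
      have hr1 : R.card - 1 ≠ 0 := by omega
      have h5 : x = 0 := by
        rcases Nat.mul_eq_zero.1 (Nat.le_zero.1 hRc) with h | h
        · exact h
        · exact absurd h hc1
      have h6 : y = 0 := by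
        rcases Nat.mul_eq_zero.1 (Nat.le_zero.1 hCc) with h | h
        · exact h
        · exact absurd h hr1
      rw [h5, h6]
      simp
    · -- p + 4 w ≥ 16
      have hpw : 16 ≤ p + 4 * w := by
        by_contra hlt
        have h5 : w ≤ 2 := by omega
        have h6 : p ≤ 15 := by omega
        have h7 : w * p ≤ 2 * 15 := Nat.mul_le_mul h5 h6
        omega
      have h7 : w + p ≤ 2 * (C.card - 1) + 4 := by omega
      have h8 : w + p ≤ 2 * (R.card - 1) + 4 := by omega
      obtain ⟨k, hk⟩ := Nat.exists_eq_add_of_le (by omega : 4 ≤ w + p)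
      have h9 : k ≤ 2 * (C.card - 1) := by omega
      have h10 : k ≤ 2 * (R.card - 1) := by omega
      have h13 : 3 * p ≤ 4 * k := by omega
      constructor
      · calc 3 * (p * x) = 3 * p * x := by ring
          _ ≤ 4 * k * x := Nat.mul_le_mul_right x h13
          _ = 4 * (x * k) := by ring
          _ ≤ 4 * (x * (2 * (C.card - 1))) :=
              Nat.mul_le_mul_left 4 (Nat.mul_le_mul_left x h9)
          _ = 8 * (x * (C.card - 1)) := by ring
          _ ≤ 8 * (2 * E.card) := Nat.mul_le_mul_left 8 hRc
          _ = 16 * E.card := by ring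
      · calc 3 * (p * y) = 3 * p * y := by ring
          _ ≤ 4 * k * y := Nat.mul_le_mul_right y h13
          _ = 4 * (y * k) := by ring
          _ ≤ 4 * (y * (2 * (R.card - 1))) :=
              Nat.mul_le_mul_left 4 (Nat.mul_le_mul_left y h10)
          _ = 8 * (y * (R.card - 1)) := by ring
          _ ≤ 8 * (2 * E.card) := Nat.mul_le_mul_left 8 hCc
          _ = 16 * E.card := by ring
  -- bijections
  obtain ⟨σ, hσ⟩ := Finset.exists_equiv_extend_of_card_eq (α := ZMod p) (β := ZMod p)
    (t := Finset.univ) (by rw [Finset.card_univ]) (s := R1) (f := s) (subset_univ _) hs1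
  obtain ⟨τ, hτ⟩ := Finset.exists_equiv_extend_of_card_eq (α := ZMod p) (β := ZMod p)
    (t := Finset.univ) (by rw [Finset.card_univ]) (s := C1) (f := t) (subset_univ _) ht1
  let e : (Finset.univ : Finset (ZMod p)) ≃ ZMod p :=
    ⟨fun x => x.1, fun x => ⟨x, mem_univ _⟩, fun _ => rfl, fun _ => rfl⟩
  let S : ZMod p ≃ ZMod p := σ.trans e
  let T : ZMod p ≃ ZMod p := τ.trans e
  have hS : ∀ i ∈ R1, S i = s i := fun i hi => hσ i hi
  have hT : ∀ j ∈ C1, T j = t j := fun j hj => hτ j hj
  let M' : ZMod p → ZMod p → ZMod p := fun u v =>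
    M (S.symm u) (T.symm v) - α (S.symm u) - β (T.symm v)
  have hM'def : ∀ u v, M' u v = M (S.symm u) (T.symm v) - α (S.symm u) - β (T.symm v) :=
    fun u v => rfl
  have hM'st : ∀ i j, M' (S i) (T j) = M i j - α i - β j := by
    intro i j
    rw [hM'def, S.symm_apply_apply, T.symm_apply_apply]
  have hM' : IsDM M' := by
    intro u u' v v' hu hv he2
    apply hM (S.symm u) (S.symm u') (T.symm v) (T.symm v')
      (fun h => hu (S.symm.injective h)) (fun h => hv (T.symm.injective h))
    rw [hM'def, hM'def, hM'def, hM'def] at he2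
    linear_combination he2
  have hErr : (Err M' (R1.map S.toEmbedding) (C1.map T.toEmbedding)).card ≤ E.card := by
    apply card_le_card_of_injOn (fun w => (S.symm w.1, T.symm w.2))
    · intro w hw
      rw [mem_coe, mem_Err] at hw
      obtain ⟨⟨h5, h6⟩, h7⟩ := hw
      obtain ⟨i, hi, hi2⟩ := mem_map.1 h5
      obtain ⟨j, hj, hj2⟩ := mem_map.1 h6
      have hi3 : S i = w.1 := hi2
      have hj3 : T j = w.2 := hj2
      rw [mem_coe, hE, mem_Er1]
      rw [← hi3, ← hj3, hM'st, hS i hi, hT j hj] at h7
      simp only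
      rw [← hi3, ← hj3, S.symm_apply_apply, T.symm_apply_apply]
      refine ⟨⟨hR1 hi, hC1 hj⟩, fun h => h7 ?_⟩
      rw [h]; ring
    · intro w _ w' _ h
      rw [Prod.mk.injEq] at h
      exact Prod.ext (S.symm.injective h.1) (T.symm.injective h.2)
  obtain ⟨A, B, s', t', hs', ht', hfin⟩ := robust (M := M') (R := R1.map S.toEmbedding)
    (C := C1.map T.toEmbedding) hM' (by
      rw [card_map, card_map]
      obtain ⟨x, hx⟩ := Nat.exists_eq_add_of_le hR1c
      obtain ⟨y, hy⟩ := Nat.exists_eq_add_of_le hC1c
      have hx' : R.card - R1.card = x := by omega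
      have hy' : C.card - C1.card = y := by omega
      rw [hx', hy'] at hnum
      obtain ⟨hn1, hn2⟩ := hnum
      have h5 : (R.card + 2 * C.card + 2) * p
          = (R1.card + 2 * C1.card + 2) * p + p * x + 2 * (p * y) := by rw [hx, hy]; ring
      omega) (by
      rw [card_map]
      obtain ⟨x, hx⟩ := Nat.exists_eq_add_of_le hR1c
      have hx' : R.card - R1.card = x := by omega
      rw [hx'] at hnum
      obtain ⟨hn1, _⟩ := hnum
      have h5 : (2 * R.card + 2) * p = (2 * R1.card + 2) * p + 2 * (p * x) := by rw [hx]; ring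
      omega)
  refine ⟨fun i => α i + A (S i), fun j => β j + B (T j), fun i => s' (S i), fun j => t' (T j),
    hs'.comp S.bijective, ht'.comp T.bijective, fun i x => ?_⟩
  have h5 := hM'st i x
  rw [hfin] at h5
  linear_combination -h5

end Pool.Agent.Lib.BHR_h63
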