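import Pool.Agent.Lib.BHR_h63.Cx
import Pool.Agent.Lib.BHR_h63.Rigid
import Pool.Agent.Lib.BHR_h63.Rank2
import Pool.Agent.Lib.BHR_h63.Cubic

set_option autoImplicit false

/-!
From Butson matrices of prime order to difference matrices, the general wrapper.
-/

namespace Pool.Agent.Lib.BHR_h63

open Finset

variable {p : ℕ} [hpf : Fact p.Prime]

theorem bij_val : Function.Bijective (fun k : Fin p => ((k.val : ℕ) : ZMod p)) := by
  haveI : NeZero p := ⟨hpf.out.ne_zero⟩
  rw [Fintype.bijective_iff_injective_and_card]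
  refine ⟨fun k l hkl => ?_, by rw [Fintype.card_fin, ZMod.card]⟩
  have h3 : k.val % p = l.val % p := (ZMod.natCast_eq_natCast_iff' _ _ _).1 hkl
  rw [Nat.mod_eq_of_lt k.isLt, Nat.mod_eq_of_lt l.isLt] at h3
  exact Fin.ext h3

/-- the residue of an index -/
noncomputable def eF : Fin p ≃ ZMod p := Equiv.ofBijective _ bij_val

theorem eF_apply (k : Fin p) : eF k = ((k.val : ℕ) : ZMod p) := rfl

theorem exp_eq (k l : Fin p) : Complex.exp (2 * (Real.pi : ℂ) * Complex.I *
      ((k.val * l.val : ℕ) : ℂ) / (p : ℂ)) = chi (eF k * eF l) := by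
  rw [eF_apply, eF_apply, ← chi_natCast (p := p), Nat.cast_mul]

/-- the exponents of a Butson matrix of prime order form a difference matrix -/
theorem exponents (H : Matrix (Fin p) (Fin p) ℂ) (hH : ∀ i j, H i j ^ p = 1)
    (hHH : H * H.conjTranspose = (p : ℂ) • (1 : Matrix (Fin p) (Fin p) ℂ)) :
    ∃ M : ZMod p → ZMod p → ZMod p, IsDM M ∧ ∀ i j, H i j = chi (M (eF i) (eF j)) := by
  classical
  choose m hm using fun i j => exists_chi (hH i j)
  have hrow : ∀ i i', i ≠ i' → Function.Injective fun j => m i j - m i' j := by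
    intro i i' hne
    apply inj_of_sum (Fintype.card_fin p)
    have h3 := congrFun (congrFun hHH i) i'
    rw [Matrix.mul_apply, Matrix.smul_apply, Matrix.one_apply_ne hne, smul_zero] at h3
    rw [← h3]
    refine sum_congr rfl fun j _ => ?_
    rw [Matrix.conjTranspose_apply, hm i j, hm i' j]
    have : star (chi (m i' j)) = chi (-(m i' j)) := chi_conj _
    rw [this, ← chi_add, sub_eq_add_neg]
  refine ⟨fun u v => m (eF.symm u) (eF.symm v), ?_, ?_⟩
  · intro u u' v v' hu hv he2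
    apply hv
    apply eF.symm.injective
    apply hrow (eF.symm u) (eF.symm u') fun h => hu (eF.symm.injective h)
    simp only at he2 ⊢
    linear_combination he2
  · intro i j
    simp only [Equiv.symm_apply_apply]
    exact hm i j

/-- back to complex matrices -/
theorem fourier_of (H : Matrix (Fin p) (Fin p) ℂ) (M : ZMod p → ZMod p → ZMod p)
    (hM : ∀ i j, H i j = chi (M (eF i) (eF j)))
    (h : ∃ α β s t : ZMod p → ZMod p, Function.Bijective s ∧ Function.Bijective t ∧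
      ∀ i x, M i x = α i + β x + s i * t x) :
    ∃ σ τ : Equiv.Perm (Fin p), ∃ a b : Fin p → ℂ,
      (∀ i, a i ^ p = 1) ∧ (∀ j, b j ^ p = 1) ∧
      ∀ i j, H i j = a i * b j * Complex.exp (2 * (Real.pi : ℂ) * Complex.I *
        (((σ i).val * (τ j).val : ℕ) : ℂ) / (p : ℂ)) := by
  obtain ⟨A, B, s', t', hs', ht', hfin⟩ := h
  let S : ZMod p ≃ ZMod p := Equiv.ofBijective s' hs'
  let T : ZMod p ≃ ZMod p := Equiv.ofBijective t' ht'
  refine ⟨(eF.trans S).trans eF.symm, (eF.trans T).trans eF.symm,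
    fun i => chi (A (eF i)), fun j => chi (B (eF j)),
    fun i => chi_pow _, fun j => chi_pow _, fun i j => ?_⟩
  rw [exp_eq, ← chi_add, ← chi_add, hM i j, hfin]
  have h4 : eF (((eF.trans S).trans eF.symm) i) = s' (eF i) := by
    simp only [Equiv.trans_apply, Equiv.apply_symm_apply]; rfl
  have h5 : eF (((eF.trans T).trans eF.symm) j) = t' (eF j) := by
    simp only [Equiv.trans_apply, Equiv.apply_symm_apply]; rfl
  rw [h4, h5]

/-- a `p`-th root of unity to a natural power of `ω` -/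
theorem exp_nat (n : ℕ) : Complex.exp (2 * (Real.pi : ℂ) * Complex.I * ((n : ℕ) : ℂ) / (p : ℂ))
    = chi (n : ZMod p) := (chi_natCast n).symm

/-- **Rigidity**, complex form. -/
theorem cx_rigid (H K : Matrix (Fin p) (Fin p) ℂ) (hH : ∀ i j, H i j ^ p = 1)
    (hHH : H * H.conjTranspose = (p : ℂ) • (1 : Matrix (Fin p) (Fin p) ℂ))
    (s t : Fin p → ℕ) (a b : Fin p → ℂ) (ha : ∀ i, a i ^ p = 1) (hb : ∀ j, b j ^ p = 1)
    (hK : ∀ i j, K i j = a i * b j *
      Complex.exp (2 * (Real.pi : ℂ) * Complex.I * ((s i * t j : ℕ) : ℂ) / (p : ℂ)))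
    (R C : Finset (Fin p)) (e : ℕ)
    (he : ((R ×ˢ C).filter fun z => H z.1 z.2 ≠ K z.1 z.2).card ≤ e)
    (h1 : 48 * e + 2 * p * p ≤ (R.card + 2 * C.card + 2) * p)
    (h2 : 48 * e + p * p ≤ (2 * R.card + 2) * p) :
    ∃ σ τ : Equiv.Perm (Fin p), ∃ a b : Fin p → ℂ,
      (∀ i, a i ^ p = 1) ∧ (∀ j, b j ^ p = 1) ∧
      ∀ i j, H i j = a i * b j * Complex.exp (2 * (Real.pi : ℂ) * Complex.I *
        (((σ i).val * (τ j).val : ℕ) : ℂ) / (p : ℂ)) := by
  classical
  obtain ⟨M, hM, hHM⟩ := exponents H hH hHH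
  choose α hα using fun i => exists_chi (ha i)
  choose β hβ using fun j => exists_chi (hb j)
  set N : ZMod p → ZMod p → ZMod p := fun u v => α (eF.symm u) + β (eF.symm v)
    + ((s (eF.symm u) : ℕ) : ZMod p) * ((t (eF.symm v) : ℕ) : ZMod p) with hN
  have hKN : ∀ i j, K i j = chi (N (eF i) (eF j)) := by
    intro i j
    rw [hK, exp_nat, hN]
    simp only [Equiv.symm_apply_apply]
    rw [chi_add, chi_add, ← hα, ← hβ, Nat.cast_mul]
  have hErr : (Er1 M N (R.map eF.toEmbedding) (C.map eF.toEmbedding)).card ≤ e := by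
    refine le_trans (le_of_eq ?_) he
    symm
    apply card_bij (fun z _ => (eF z.1, eF z.2))
    · intro z hz
      rw [mem_filter, mem_product] at hz
      rw [mem_Er1]
      refine ⟨⟨mem_map.2 ⟨z.1, hz.1.1, rfl⟩, mem_map.2 ⟨z.2, hz.1.2, rfl⟩⟩, fun h => hz.2 ?_⟩
      rw [hHM, hKN, h]
    · intro z _ z' _ h
      rw [Prod.mk.injEq] at h
      exact Prod.ext (eF.injective h.1) (eF.injective h.2)
    · intro w hw
      rw [mem_Er1] at hw
      obtain ⟨⟨h3, h4⟩, h5⟩ := hw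
      obtain ⟨i, hi, hi2⟩ := mem_map.1 h3
      obtain ⟨j, hj, hj2⟩ := mem_map.1 h4
      have hi3 : eF i = w.1 := hi2
      have hj3 : eF j = w.2 := hj2
      refine ⟨(i, j), ?_, ?_⟩
      · rw [mem_filter, mem_product]
        refine ⟨⟨hi, hj⟩, fun h => h5 ?_⟩
        rw [← hi3, ← hj3]
        apply chi_inj
        rw [← hHM, ← hKN]
        exact h
      · rw [hi3, hj3]
  refine fourier_of H M hHM (rigid (R := R.map eF.toEmbedding) (C := C.map eF.toEmbedding) hM
    (fun u => α (eF.symm u)) (fun v => β (eF.symm v)) (fun u => ((s (eF.symm u) : ℕ) : ZMod p))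
    (fun v => ((t (eF.symm v) : ℕ) : ZMod p)) ?_ ?_)
  · rw [card_map, card_map]
    have : 48 * (Er1 M N (R.map eF.toEmbedding) (C.map eF.toEmbedding)).card ≤ 48 * e := by omega
    exact le_trans (Nat.add_le_add_right this _) h1
  · rw [card_map]
    have : 48 * (Er1 M N (R.map eF.toEmbedding) (C.map eF.toEmbedding)).card ≤ 48 * e := by omega
    exact le_trans (Nat.add_le_add_right this _) h2

/-- **Rank two**, complex form. -/
theorem cx_rank_two (H : Matrix (Fin p) (Fin p) ℂ) (hH : ∀ i j, H i j ^ p = 1)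
    (hHH : H * H.conjTranspose = (p : ℂ) • (1 : Matrix (Fin p) (Fin p) ℂ))
    (R C : Finset (Fin p)) (hRC : 2 * p ≤ R.card + C.card + 3)
    (s s' t t' : Fin p → ℕ) (a b : Fin p → ℂ) (ha : ∀ i, a i ^ p = 1) (hb : ∀ j, b j ^ p = 1)
    (h : ∀ i ∈ R, ∀ j ∈ C, H i j = a i * b j *
      Complex.exp (2 * (Real.pi : ℂ) * Complex.I * ((s i * t j + s' i * t' j : ℕ) : ℂ) / (p : ℂ))) :
    ∃ σ τ : Equiv.Perm (Fin p), ∃ a b : Fin p → ℂ,
      (∀ i, a i ^ p = 1) ∧ (∀ j, b j ^ p = 1) ∧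
      ∀ i j, H i j = a i * b j * Complex.exp (2 * (Real.pi : ℂ) * Complex.I *
        (((σ i).val * (τ j).val : ℕ) : ℂ) / (p : ℂ)) := by
  classical
  obtain ⟨M, hM, hHM⟩ := exponents H hH hHH
  choose α hα using fun i => exists_chi (ha i)
  choose β hβ using fun j => exists_chi (hb j)
  refine fourier_of H M hHM (rank_two (R := R.map eF.toEmbedding) (C := C.map eF.toEmbedding) hM
    (by rw [card_map, card_map]; exact hRC)
    (fun u => α (eF.symm u)) (fun v => β (eF.symm v)) (fun u => ((s (eF.symm u) : ℕ) : ZMod p))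
    (fun u => ((s' (eF.symm u) : ℕ) : ZMod p))
    (fun v => ((t (eF.symm v) : ℕ) : ZMod p)) (fun v => ((t' (eF.symm v) : ℕ) : ZMod p)) ?_)
  intro u hu v hv
  obtain ⟨i, hi, hi2⟩ := mem_map.1 hu
  obtain ⟨j, hj, hj2⟩ := mem_map.1 hv
  have hi3 : eF i = u := hi2
  have hj3 : eF j = v := hj2
  subst hi3
  subst hj3
  simp only [Equiv.symm_apply_apply]
  apply chi_inj
  rw [← hHM, h i hi j hj, exp_nat, hα, hβ, ← chi_add, ← chi_add]
  congr 1
  push_cast
  ring

/-- **Cubic rows**, complex form. -/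
theorem cx_cubic (H : Matrix (Fin p) (Fin p) ℂ) (hH : ∀ i j, H i j ^ p = 1)
    (hHH : H * H.conjTranspose = (p : ℂ) • (1 : Matrix (Fin p) (Fin p) ℂ))
    (τ : Equiv.Perm (Fin p)) (a b : Fin p → ℂ) (ha : ∀ i, a i ^ p = 1) (hb : ∀ j, b j ^ p = 1)
    (c1 c2 c3 : Fin p → ℕ)
    (h : ∀ i j, H i j = a i * b j *
      Complex.exp (2 * (Real.pi : ℂ) * Complex.I *
        ((c1 i * (τ j).val + c2 i * (τ j).val ^ 2 + c3 i * (τ j).val ^ 3 : ℕ) : ℂ) / (p : ℂ))) :
    ∃ σ τ : Equiv.Perm (Fin p), ∃ a b : Fin p → ℂ,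
      (∀ i, a i ^ p = 1) ∧ (∀ j, b j ^ p = 1) ∧
      ∀ i j, H i j = a i * b j * Complex.exp (2 * (Real.pi : ℂ) * Complex.I *
        (((σ i).val * (τ j).val : ℕ) : ℂ) / (p : ℂ)) := by
  classical
  obtain ⟨M, hM, hHM⟩ := exponents H hH hHH
  choose α hα using fun i => exists_chi (ha i)
  choose β hβ using fun j => exists_chi (hb j)
  refine fourier_of H M hHM (cubic hM (fun v => eF (τ (eF.symm v)))
    (eF.injective.comp (τ.injective.comp eF.symm.injective))
    (fun u => α (eF.symm u)) (fun v => β (eF.symm v)) (fun u => ((c1 (eF.symm u) : ℕ) : ZMod p))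
    (fun u => ((c2 (eF.symm u) : ℕ) : ZMod p)) (fun u => ((c3 (eF.symm u) : ℕ) : ZMod p)) ?_)
  intro u v
  obtain ⟨i, rfl⟩ := eF.surjective u
  obtain ⟨j, rfl⟩ := eF.surjective v
  simp only [Equiv.symm_apply_apply]
  apply chi_inj
  rw [← hHM, h i j, exp_nat, hα, hβ, ← chi_add, ← chi_add]
  congr 1
  rw [eF_apply]
  push_cast
  ring

end Pool.Agent.Lib.BHR_h63
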